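import Pool.Agent.H63.VC.Asym
import Pool.Agent.H63.VC.EndB
import Pool.Agent.H63.VC.Riem
import Pool.Agent.H63.VC.SlowL
import Pool.Agent.H63.VC.SlowU
import Pool.Agent.H63.VC3.CritB
import Pool.Agent.H63.VC3.Upper
import Pool.Agent.H63.VC4.KBN
import Pool.Agent.H63.VC4.UpperN
import Pool.Agent.H63.VC5.Defs
import Pool.Agent.H63.VC5.FFdilog
import Pool.Agent.H63.VC6.LocU
import Pool.Agent.H63.VC6.SlotU
import Pool.Agent.H63.VC7.Link
import Pool.Agent.H63.VC7.QcLL
import Pool.Agent.S3.Defs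

/-!
# Kernels of the closed nodes
-/

namespace Pool.Agent.S5

open Pool.Agent.H63.VC3 Pool.Agent.H63.VC7 Pool.Agent.S3 Complex

/-- The position of the label `k`. -/
noncomputable def yM (M k : ℕ) : ℂ := ((k : ℂ) + 1) / M - 1 / 2

/-- The closed kernel (two half twists). -/
noncomputable def kC (s : ℤ) (M : ℕ) (a b : ℂ) : ℂ :=
  exp (s * Real.pi * I * (M * ((a - b) ^ 2 / 2 + (1 - a - b) / 2) - (1 - a - b) / 2)) *
    rS M (M * (a + b) - 1)

/-- The factor of the Bailey step. -/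
noncomputable def kB (s : ℤ) (M : ℕ) (y z : ℂ) : ℂ :=
  exp (s * Real.pi * I * (M * ((y + z) ^ 2 / 2 - (y - z) / 2) - (y + 3 * z) / 2)) *
    rS M (M * (y - z))

/-- The closed kernel (one half twist). -/
noncomputable def kH (s : ℤ) (M : ℕ) (z b : ℂ) : ℂ :=
  exp (-(s * Real.pi * I * (M * (z + 1 / 2) * (b + 1 / 2) - z - b))) *
    (exp (-LL M (M * (z + 1 / 2) - 1)) * exp (-LL M (M * (b + 1 / 2) - 1))) *
      rS M (M * (z + b) - 1)

/-- The unimodular constant of a node with two half twists. -/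
noncomputable def ph2 (s : ℤ) (M : ℕ) : ℂ :=
  (-1) ^ (M + 1) * exp (s * Real.pi * I * (1 - M / 2 - 1 / (2 * M)))

/-- The unimodular constant of a node with three half twists. -/
noncomputable def ph3 (s : ℤ) (M : ℕ) : ℂ :=
  (-1) ^ (M + 1) * exp (s * Real.pi * I * (M / 4 + 1 / 2 - 1 / (4 * M)))

/-- The unimodular constant of a node with four half twists. -/
noncomputable def ph4 (s : ℤ) (M : ℕ) : ℂ :=
  (-1) ^ (M + 1) * exp (s * Real.pi * I * (1 - M / 2))

/-- The factor of a node with two slots. -/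
noncomputable def D2 (r : ℝ) (M k l : ℕ) : ℂ := DG r M (Finset.univ : Finset (Fin 2)) ![k, l]

/-- The label of the slot `n` (`n = i`: the left slot of the node `i`, `n = i + 1`: the right one);
the label of a missing slot is `M - 1`. -/
def ke {m : ℕ} (M : ℕ) (k : Fin m → ℕ) (n : ℕ) : ℕ :=
  if h : 1 ≤ n ∧ n ≤ m then k ⟨n - 1, by omega⟩ else M - 1

end Pool.Agent.S5
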