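import Pool.Agent.H63.VC10.Brac

/-!
# The colored Jones polynomials of a chain as sums over lists; absorption of the entries `1`, `-1`

`cjl l e N q` is the colored Jones polynomial of the diagram of the chain `l`. By the Racah identity
`Rac q N` (Hoste-Shin moves: `x, ε, y` becomes `x - ε, y - ε`) an inner entry `ε = 1, -1` can be
removed.
-/

set_option autoImplicit false

namespace Pool.Agent.S5

open Pool.Agent.H63.VC7 Pool.Agent.H63.VC10
open scoped BigOperators

/-- The weight of a channel of a twist region with `a` half twists. -/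
noncomputable def vW (q : ℂ) (N : ℕ) (a : ℤ) (X : ℕ) : ℂ :=
  tw q X ^ a * (br q (2 * (X : ℤ) + 1) / br q ((N : ℤ) + 1))

/-- The function of a chain on the channels of the twist region to the left of it. -/
noncomputable def LF (q : ℂ) (N : ℕ) : List ℤ → ℕ → ℂ
  | [], _ => 1
  | a :: l, X => ∑ Y ∈ Finset.range (N + 1), sixj q N X Y * (vW q N a Y * LF q N l Y)

/-- The colored Jones polynomial of the diagram of a chain. -/
noncomputable def cjl (l : List ℤ) (e : ℤ) (N : ℕ) (q : ℂ) : ℂ :=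
  (-1) ^ (N * l.length) * q ^ ((N : ℤ) * (N + 2) * e) * LF q N l 0

/-- The Racah identity. -/
def Rac (q : ℂ) (N : ℕ) : Prop := ∀ ε : ℤ, (ε = 1 ∨ ε = -1) → ∀ k ≤ N, ∀ l ≤ N,
  ∑ X ∈ Finset.range (N + 1), tw q X ^ ε * (br q (2 * (X : ℤ) + 1) / br q ((N : ℤ) + 1)) *
      sixj q N k X * sixj q N X l =
    (-1) ^ N * q ^ (ε * ((N : ℤ) * (N + 2))) * tw q k ^ (-ε) * tw q l ^ (-ε) * sixj q N k l

/-- `Abs l l' s`: the chain `l'` arises from the chain `l` by absorbing inner entries `ε = ±1`, with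
sum `s`. -/
inductive Abs : List ℤ → List ℤ → ℤ → Prop
  | refl (l : List ℤ) : Abs l l 0
  | step (l1 : List ℤ) (x ε y : ℤ) (l2 l' : List ℤ) (s : ℤ) (hε : ε = 1 ∨ ε = -1)
      (h : Abs (l1 ++ (x - ε) :: (y - ε) :: l2) l' s) : Abs (l1 ++ x :: ε :: y :: l2) l' (s + ε)

/-! ### Lists -/

private theorem Abs_sum (s : Finset ℕ) (m : ℕ) (F : (Fin (m + 1) → ℕ) → ℂ) :
    ∑ X ∈ Fintype.piFinset (fun _ : Fin (m + 1) => s), F X =
      ∑ Y ∈ s, ∑ Z ∈ Fintype.piFinset (fun _ : Fin m => s),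
        F (Fin.cons (α := fun _ => ℕ) Y Z) := by
  rw [← Finset.sum_product' s (Fintype.piFinset (fun _ : Fin m => s))
    (fun Y Z => F (Fin.cons (α := fun _ => ℕ) Y Z))]
  refine Finset.sum_equiv (Fin.consEquiv (fun _ : Fin (m + 1) => ℕ)).symm (fun X => ?_)
    (fun X _ => ?_)
  · simp only [Fintype.mem_piFinset, Finset.mem_product, Fin.forall_fin_succ]
    exact Iff.rfl
  · show F X = F (Fin.cons (α := fun _ => ℕ) (X 0) (Fin.tail X))
    rw [Fin.cons_self_tail]

private theorem Abs_gen (q : ℂ) (N : ℕ) : ∀ (m : ℕ) (a : Fin (m + 1) → ℤ) (X0 : ℕ),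
    ∑ X ∈ Fintype.piFinset (fun _ : Fin (m + 1) => Finset.range (N + 1)),
      sixj q N X0 (X 0) * ((∏ i, vW q N (a i) (X i)) *
        ∏ j : Fin m, sixj q N (X j.castSucc) (X j.succ)) = LF q N (List.ofFn a) X0
  | 0, a, X0 => by
    rw [Abs_sum]
    simp [LF]
  | m + 1, a, X0 => by
    rw [Abs_sum, List.ofFn_succ, LF]
    refine Finset.sum_congr rfl fun Y _ => ?_
    have h := Abs_gen q N m (fun i => a i.succ) Y
    rw [← h, Finset.mul_sum, Finset.mul_sum]
    refine Finset.sum_congr rfl fun Z _ => ?_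
    rw [Fin.prod_univ_succ, Fin.prod_univ_succ (n := m) (fun j => sixj q N
      (Fin.cons (α := fun _ => ℕ) Y Z j.castSucc) (Fin.cons (α := fun _ => ℕ) Y Z j.succ))]
    simp only [Fin.cons_zero, Fin.cons_succ, Fin.castSucc_zero, Fin.castSucc_succ]
    ring

theorem sixj_zero_left (q : ℂ) (N l : ℕ) : sixj q N 0 l = 1 := by
  unfold sixj
  rw [Finset.sum_range_succ', Finset.sum_eq_zero]
  · simp
  · intro t _
    rw [Finset.prod_eq_zero (Finset.mem_range.2 (Nat.succ_pos t)), mul_zero]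
    have : br q (((0 : ℕ) : ℤ) - ((0 : ℕ) : ℤ)) = 0 := by
      simp [br]
    rw [this]
    simp

theorem jones_LF {m : ℕ} (a : Fin (m + 1) → ℤ) (N : ℕ) (q : ℂ) :
    jones Fin.castSucc Fin.succ a N q = LF q N (List.ofFn a) 0 := by
  rw [← Abs_gen q N m a 0, jones]
  refine Finset.sum_congr rfl fun X _ => ?_
  rw [sixj_zero_left, one_mul]
  rfl

/-- The colored Jones polynomials of the diagram of a chain. -/
theorem coloredJones_cjl {m : ℕ} {N : ℕ} {q : ℂ} (hg : Gen q N) (a : Fin (m + 1) → ℤ) (e : ℤ) :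
    coloredJones (diagram Fin.castSucc a) e N q = cjl (List.ofFn a) e N q := by
  rw [coloredJones_diagram q N hg Fin.castSucc (fun j => le_rfl) a e, jones_LF, cjl,
    List.length_ofFn]

/-! ### Absorption -/

theorem LF_abs {q : ℂ} {N : ℕ} (hg : Gen q N) (hR : Rac q N) {ε : ℤ} (hε : ε = 1 ∨ ε = -1)
    (x y : ℤ) (l : List ℤ) (X0 : ℕ) :
    LF q N (x :: ε :: y :: l) X0 = (-1) ^ N * q ^ (ε * ((N : ℤ) * (N + 2))) *
      LF q N ((x - ε) :: (y - ε) :: l) X0 := by
  have htw : ∀ Y : ℕ, tw q Y ≠ 0 := fun Y =>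
    mul_ne_zero (pow_ne_zero _ (by norm_num)) (pow_ne_zero _ hg.1)
  simp only [LF]
  rw [Finset.mul_sum]
  refine Finset.sum_congr rfl fun Y hY => ?_
  have hY' : Y ≤ N := Nat.lt_succ_iff.mp (Finset.mem_range.mp hY)
  have h1 : ∑ Z ∈ Finset.range (N + 1), sixj q N Y Z * (vW q N ε Z *
      ∑ U ∈ Finset.range (N + 1), sixj q N Z U * (vW q N y U * LF q N l U)) =
      ∑ U ∈ Finset.range (N + 1), (∑ Z ∈ Finset.range (N + 1), tw q Z ^ ε *
        (br q (2 * (Z : ℤ) + 1) / br q ((N : ℤ) + 1)) * sixj q N Y Z * sixj q N Z U) *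
        (vW q N y U * LF q N l U) := by
    simp only [Finset.mul_sum, Finset.sum_mul]
    rw [Finset.sum_comm]
    refine Finset.sum_congr rfl fun U _ => ?_
    refine Finset.sum_congr rfl fun Z _ => ?_
    unfold vW
    ring
  rw [h1]
  have h2 : ∑ U ∈ Finset.range (N + 1), (∑ Z ∈ Finset.range (N + 1), tw q Z ^ ε *
      (br q (2 * (Z : ℤ) + 1) / br q ((N : ℤ) + 1)) * sixj q N Y Z * sixj q N Z U) *
      (vW q N y U * LF q N l U) = (-1) ^ N * q ^ (ε * ((N : ℤ) * (N + 2))) * tw q Y ^ (-ε) *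
      ∑ U ∈ Finset.range (N + 1), sixj q N Y U * (vW q N (y - ε) U * LF q N l U) := by
    rw [Finset.mul_sum]
    refine Finset.sum_congr rfl fun U hU => ?_
    have hU' : U ≤ N := Nat.lt_succ_iff.mp (Finset.mem_range.mp hU)
    rw [hR ε hε Y hY' U hU']
    unfold vW
    rw [sub_eq_add_neg y ε, zpow_add₀ (htw U)]
    ring
  rw [h2]
  unfold vW
  rw [sub_eq_add_neg x ε, zpow_add₀ (htw Y)]
  ring

theorem LF_append {q : ℂ} {N : ℕ} {l l' : List ℤ} {c : ℂ} (h : ∀ X, LF q N l X = c * LF q N l' X)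
    (l1 : List ℤ) (X : ℕ) : LF q N (l1 ++ l) X = c * LF q N (l1 ++ l') X := by
  induction l1 generalizing X with
  | nil => exact h X
  | cons a l1 ih =>
    rw [List.cons_append, List.cons_append, LF, LF, Finset.mul_sum]
    refine Finset.sum_congr rfl fun Y _ => ?_
    rw [ih]
    ring

theorem cjl_abs {q : ℂ} {N : ℕ} (hg : Gen q N) (hR : Rac q N) {ε : ℤ} (hε : ε = 1 ∨ ε = -1)
    (l1 : List ℤ) (x y : ℤ) (l2 : List ℤ) (e : ℤ) :
    cjl (l1 ++ x :: ε :: y :: l2) e N q = cjl (l1 ++ (x - ε) :: (y - ε) :: l2) (e + ε) N q := by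
  have hq : q ≠ 0 := hg.1
  unfold cjl
  rw [LF_append (fun X => LF_abs hg hR hε x y l2 X) l1 0]
  have e1 : (l1 ++ x :: ε :: y :: l2).length = (l1 ++ (x - ε) :: (y - ε) :: l2).length + 1 := by
    simp only [List.length_append, List.length_cons]
    omega
  have e2 : (N : ℤ) * (N + 2) * (e + ε) = (N : ℤ) * (N + 2) * e + ε * ((N : ℤ) * (N + 2)) := by
    ring
  have e3 : ((-1 : ℂ) ^ N) * (-1) ^ N = 1 := by
    rw [← mul_pow]
    norm_num
  rw [e1, e2, zpow_add₀ hq, Nat.mul_add, mul_one, pow_add]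
  linear_combination ((-1 : ℂ) ^ (N * (l1 ++ (x - ε) :: (y - ε) :: l2).length) *
    (q ^ ((N : ℤ) * (N + 2) * e) * q ^ (ε * ((N : ℤ) * (N + 2)))) *
    LF q N (l1 ++ (x - ε) :: (y - ε) :: l2) 0) * e3

theorem Abs.cjl_eq {l l' : List ℤ} {s : ℤ} (h : Abs l l' s) {q : ℂ} {N : ℕ} (hg : Gen q N)
    (hR : Rac q N) (e : ℤ) : cjl l e N q = cjl l' (e + s) N q := by
  induction h generalizing e with
  | refl l => rw [add_zero]
  | step l1 x ε y l2 l' s hε _ ih =>
    rw [cjl_abs hg hR hε, ih]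
    congr 1
    ring

/-- Absorption of the entries `±1` of a chain. -/
theorem Abs.coloredJones_eq {m m' : ℕ} {a : Fin (m + 1) → ℤ} {a' : Fin (m' + 1) → ℤ} {s : ℤ}
    (h : Abs (List.ofFn a) (List.ofFn a') s) {q : ℂ} {N : ℕ} (hg : Gen q N) (hR : Rac q N)
    (e : ℤ) : coloredJones (diagram Fin.castSucc a) e N q =
      coloredJones (diagram Fin.castSucc a') (e + s) N q := by
  rw [coloredJones_cjl hg, coloredJones_cjl hg, h.cjl_eq hg hR]

/-! ### The relation -/

theorem Abs.trans {l l' l'' : List ℤ} {s s' : ℤ} (h : Abs l l' s) (h' : Abs l' l'' s') :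
    Abs l l'' (s + s') := by
  induction h with
  | refl l => rwa [zero_add]
  | step l1 x ε y l2 l' s hε _ ih =>
    have := Abs.step l1 x ε y l2 l'' (s + s') hε (ih h')
    have e : s + ε + s' = s + s' + ε := by ring
    rw [e]
    exact this

theorem Abs.one {l1 : List ℤ} {x ε y : ℤ} {l2 : List ℤ} (hε : ε = 1 ∨ ε = -1) :
    Abs (l1 ++ x :: ε :: y :: l2) (l1 ++ (x - ε) :: (y - ε) :: l2) ε := by
  have := Abs.step l1 x ε y l2 _ 0 hε (Abs.refl _)
  rwa [zero_add] at this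

theorem Abs.append_left {l l' : List ℤ} {s : ℤ} (h : Abs l l' s) (l0 : List ℤ) :
    Abs (l0 ++ l) (l0 ++ l') s := by
  induction h with
  | refl l => exact Abs.refl _
  | step l1 x ε y l2 l' s hε _ ih =>
    rw [← List.append_assoc] at ih ⊢
    exact Abs.step (l0 ++ l1) x ε y l2 _ s hε ih

theorem Abs.append_right {l l' : List ℤ} {s : ℤ} (h : Abs l l' s) (l0 : List ℤ) :
    Abs (l ++ l0) (l' ++ l0) s := by
  induction h with
  | refl l => exact Abs.refl _
  | step l1 x ε y l2 l' s hε _ ih =>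
    have e1 : l1 ++ x :: ε :: y :: l2 ++ l0 = l1 ++ x :: ε :: y :: (l2 ++ l0) := by simp
    have e2 : l1 ++ (x - ε) :: (y - ε) :: l2 ++ l0 = l1 ++ (x - ε) :: (y - ε) :: (l2 ++ l0) := by
      simp
    rw [e2] at ih
    rw [e1]
    exact Abs.step l1 x ε y (l2 ++ l0) _ s hε ih

theorem Abs.cons {l l' : List ℤ} {s : ℤ} (h : Abs l l' s) (a : ℤ) : Abs (a :: l) (a :: l') s :=
  h.append_left [a]

theorem Abs.reverse {l l' : List ℤ} {s : ℤ} (h : Abs l l' s) : Abs l.reverse l'.reverse s := by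
  induction h with
  | refl l => exact Abs.refl _
  | step l1 x ε y l2 l' s hε _ ih =>
    have e1 : (l1 ++ x :: ε :: y :: l2).reverse = l2.reverse ++ y :: ε :: x :: l1.reverse := by simp
    have e2 : (l1 ++ (x - ε) :: (y - ε) :: l2).reverse =
        l2.reverse ++ (y - ε) :: (x - ε) :: l1.reverse := by simp
    rw [e2] at ih
    rw [e1]
    exact Abs.step _ y ε x _ _ s hε ih

theorem Abs.neg {l l' : List ℤ} {s : ℤ} (h : Abs l l' s) :
    Abs (l.map fun z => -z) (l'.map fun z => -z) (-s) := by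
  induction h with
  | refl l => rw [neg_zero]; exact Abs.refl _
  | step l1 x ε y l2 l' s hε _ ih =>
    have e1 : (l1 ++ x :: ε :: y :: l2).map (fun z => -z) =
        l1.map (fun z => -z) ++ (-x) :: (-ε) :: (-y) :: l2.map (fun z => -z) := by simp
    have e2 : (l1 ++ (x - ε) :: (y - ε) :: l2).map (fun z => -z) =
        l1.map (fun z => -z) ++ (-x - -ε) :: (-y - -ε) :: l2.map (fun z => -z) := by
      simp [sub_eq_add_neg, add_comm]
    rw [e2] at ih
    rw [e1]
    have e3 : -(s + ε) = -s + -ε := by ring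
    rw [e3]
    exact Abs.step _ (-x) (-ε) (-y) _ _ (-s) (by omega) ih

end Pool.Agent.S5
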