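import Pool.Agent.S4.D.Ex
import Pool.Agent.H63.VC10.Alg

/-!
# The Racah identity for the quantum 6j-symbols

`∑_X tw(X)^ε {2X+1}/{N+1} sixj(k,X) sixj(X,l) = (-1)^N q^{ε N(N+2)} tw(k)^{-ε} tw(l)^{-ε} sixj(k,l)`
for `ε = ± 1`: a single half twist between two twist regions can be absorbed.
-/

namespace Pool.Agent.S5

open Pool.Agent.S4
open Pool.Agent.H63.VC7 Pool.Agent.H63.VC10

/-! ### The difference operators -/

/-- The coefficient of the shift up. -/
noncomputable def Ak (q : ℂ) (N k : ℕ) : ℂ :=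
  -(br q ((k : ℤ) + 1) * br q ((N : ℤ) + k + 2) * br q ((N : ℤ) - k)) /
    ((q ^ (k + 1) + (q ^ (k + 1))⁻¹) * br q (2 * (k : ℤ) + 1))

/-- The coefficient of the shift down. -/
noncomputable def Ck (q : ℂ) (N k : ℕ) : ℂ :=
  -(br q k * br q ((N : ℤ) + k + 1) * br q ((N : ℤ) + 1 - k)) /
    ((q ^ k + (q ^ k)⁻¹) * br q (2 * (k : ℤ) + 1))

/-- The operator with eigenfunctions `sixj`. -/
noncomputable def Lo (q : ℂ) (N : ℕ) (f : ℕ → ℂ) (k : ℕ) : ℂ :=
  (q + q⁻¹) * f k + Ak q N k * (f (k + 1) - f k) + Ck q N k * (f (k - 1) - f k)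

theorem Ck_zero (q : ℂ) (N : ℕ) : Ck q N 0 = 0 := by simp [Ck, br]

theorem Ak_top (q : ℂ) (N : ℕ) : Ak q N N = 0 := by simp [Ak, br]

theorem add_inv_ne {q : ℂ} {N : ℕ} (h : Gen q N) {k : ℕ} (hk : k ≤ N + 1) :
    q ^ k + (q ^ k)⁻¹ ≠ 0 := by
  rcases Nat.eq_zero_or_pos k with rfl | hk0
  · norm_num
  · have h1 := h.2 (2 * k) (by omega) (by omega)
    have h0 : q ^ k ≠ 0 := pow_ne_zero _ h.1
    intro h2
    apply h1
    have e : br q ((2 * k : ℕ) : ℤ) = (q ^ k - (q ^ k)⁻¹) * (q ^ k + (q ^ k)⁻¹) := by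
      rw [br, zpow_neg, zpow_natCast, pow_mul', mul_comm]
      field_simp
      ring
    rw [e, h2, mul_zero]

theorem br_odd_ne {q : ℂ} {N : ℕ} (h : Gen q N) {k : ℕ} (hk : k ≤ N) :
    br q (2 * (k : ℤ) + 1) ≠ 0 := by
  have h1 := h.2 (2 * k + 1) (by omega) (by omega)
  push_cast at h1
  exact h1

theorem pw_up (q : ℂ) (t k : ℕ) : pw q (t + 1) (k + 1) =
    br q ((k : ℤ) + t + 1) * br q ((k : ℤ) + t + 2) * pw q t k := by
  induction t with
  | zero =>
    rw [pw_succ]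
    simp only [pw, Finset.range_zero, Finset.prod_empty]
    push_cast
    rw [show (k : ℤ) + 1 + 0 + 1 = k + 0 + 2 by ring, show (k : ℤ) + 1 - 0 = k + 0 + 1 by ring]
    ring
  | succ t ih =>
    rw [pw_succ q (t + 1) (k + 1), ih, pw_succ q t k]
    push_cast
    rw [show (k : ℤ) + 1 + (t + 1) + 1 = k + (t + 1) + 2 by ring,
      show (k : ℤ) + 1 - (t + 1) = k - t by ring, show (k : ℤ) + (t + 1) + 1 = k + t + 2 by ring]
    ring

theorem pw_dn (q : ℂ) (t k : ℕ) : pw q (t + 1) k =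
    br q ((k : ℤ) + 1 - t) * br q ((k : ℤ) - t) * pw q t (k + 1) := by
  induction t with
  | zero =>
    rw [pw_succ]
    simp only [pw, Finset.range_zero, Finset.prod_empty]
    push_cast
    rw [show (k : ℤ) + 0 + 1 = k + 1 - 0 by ring]
    ring
  | succ t ih =>
    rw [pw_succ q (t + 1) k, ih, pw_succ q t (k + 1)]
    push_cast
    rw [show (k : ℤ) + (t + 1) + 1 = k + 1 + t + 1 by ring,
      show (k : ℤ) + 1 - (t + 1) = k - t by ring]
    ring

theorem Ck_dn (q : ℂ) (N t k : ℕ) : Ck q N k * pw q (t + 1) (k - 1) =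
    Ck q N k * (br q ((k : ℤ) - t) * br q ((k : ℤ) - t - 1) * pw q t k) := by
  cases k with
  | zero => rw [Ck_zero, zero_mul, zero_mul]
  | succ k =>
    rw [Nat.add_sub_cancel, pw_dn]
    push_cast
    rw [show (k : ℤ) + 1 - t - 1 = k - t by ring]

/-- The coefficient of `pw (t - 1)` in `Lo (pw t)`. -/
noncomputable def et (q : ℂ) (N t : ℕ) : ℂ :=
  -(br q t ^ 2 * (br q ((N : ℤ) + t + 1) * br q ((N : ℤ) + 1 - t)))

theorem Lo_pw (q : ℂ) (N : ℕ) (h : Gen q N) (t k : ℕ) (hk : k ≤ N) :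
    Lo q N (fun k => pw q (t + 1) k) k =
      cc q ((t + 1 : ℕ) : ℤ) * pw q (t + 1) k + et q N (t + 1) * pw q t k := by
  have h0 := h.1
  have h1 := add_inv_ne h (k := k) (by omega)
  have h2 := add_inv_ne h (k := k + 1) (by omega)
  have h3 := br_odd_ne h hk
  rw [Lo, mul_sub (Ck q N k), Ck_dn, pw_up, pw_succ]
  have key : (q + q⁻¹) * (br q ((k : ℤ) + t + 1) * br q ((k : ℤ) - t)) +
      Ak q N k * (br q ((k : ℤ) + t + 1) * br q ((k : ℤ) + t + 2) -
        br q ((k : ℤ) + t + 1) * br q ((k : ℤ) - t)) +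
      Ck q N k * (br q ((k : ℤ) - t) * br q ((k : ℤ) - t - 1) -
        br q ((k : ℤ) + t + 1) * br q ((k : ℤ) - t)) =
      cc q ((t + 1 : ℕ) : ℤ) * (br q ((k : ℤ) + t + 1) * br q ((k : ℤ) - t)) +
        et q N (t + 1) := by
    have hx : q ^ k ≠ 0 := pow_ne_zero _ h0
    have hs : q ^ t ≠ 0 := pow_ne_zero _ h0
    have hn : q ^ N ≠ 0 := pow_ne_zero _ h0
    rw [Ak, Ck, et]
    push_cast
    rw [div_mul_eq_mul_div, div_mul_eq_mul_div, mul_comm (q ^ (k + 1) + (q ^ (k + 1))⁻¹),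
      mul_comm (q ^ k + (q ^ k)⁻¹)]
    have u1 : br q ((k : ℤ) + t + 1) * br q ((k : ℤ) + t + 2) -
        br q ((k : ℤ) + t + 1) * br q ((k : ℤ) - t) =
        (q ^ (k + 1) + (q ^ (k + 1))⁻¹) * (br q ((t : ℤ) + 1) * br q ((k : ℤ) + t + 1)) := by
      simp only [br, neg_add, sub_eq_add_neg, neg_neg, zpow_add₀ h0, zpow_neg,
        zpow_natCast, zpow_one, pow_add, pow_one, zpow_ofNat]
      field_simp
      ring
    have u2 : br q ((k : ℤ) - t) * br q ((k : ℤ) - t - 1) -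
        br q ((k : ℤ) + t + 1) * br q ((k : ℤ) - t) =
        (q ^ k + (q ^ k)⁻¹) * (-(br q ((t : ℤ) + 1) * br q ((k : ℤ) - t))) := by
      simp only [br, neg_add, sub_eq_add_neg, neg_neg, zpow_add₀ h0, zpow_neg,
        zpow_natCast, zpow_one, pow_add, pow_one, zpow_ofNat]
      field_simp
      ring
    have u3 : ((q + q⁻¹) - cc q (t + 1)) * (br q ((k : ℤ) + t + 1) * br q ((k : ℤ) - t)) *
        br q (2 * (k : ℤ) + 1) +
        br q ((t : ℤ) + 1) * (-(br q ((k : ℤ) + 1) * br q ((N : ℤ) + k + 2) * br q ((N : ℤ) - k)) *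
          br q ((k : ℤ) + t + 1) + (br q k * br q ((N : ℤ) + k + 1) * br q ((N : ℤ) + 1 - k)) *
          br q ((k : ℤ) - t)) =
        -(br q ((t : ℤ) + 1) ^ 2 * (br q ((N : ℤ) + (t + 1) + 1) * br q ((N : ℤ) + 1 - (t + 1)))) *
          br q (2 * (k : ℤ) + 1) := by
      simp only [br, cc, two_mul, neg_add, sub_eq_add_neg, neg_neg, zpow_add₀ h0, zpow_neg,
        zpow_natCast, zpow_one, pow_add, pow_one, zpow_ofNat]
      generalize q ^ k = x at *
      generalize q ^ t = s at *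
      generalize q ^ N = n at *
      field_simp
      ring
    rw [u1, u2]
    generalize q ^ (k + 1) + (q ^ (k + 1))⁻¹ = d1 at *
    generalize q ^ k + (q ^ k)⁻¹ = d2 at *
    generalize br q (2 * (k : ℤ) + 1) = o at *
    generalize q + q⁻¹ = c0 at *
    field_simp
    linear_combination u3
  linear_combination (pw q t k) * key

theorem Lo_one (q : ℂ) (N k : ℕ) : Lo q N (fun k => pw q 0 k) k = cc q ((0 : ℕ) : ℤ) * pw q 0 k := by
  rw [Lo, cc]
  simp only [pw, Finset.range_zero, Finset.prod_empty, Nat.cast_zero, mul_zero, zero_add, zpow_one,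
    sub_self, add_zero, mul_one, zpow_neg]

/-! ### The conjugated operator -/

/-- The operator conjugated by `tw`. -/
noncomputable def Lt (q : ℂ) (N : ℕ) (f : ℕ → ℂ) (k : ℕ) : ℂ :=
  (q + q⁻¹) * f k - Ak q N k * ((q ^ (2 * k + 2))⁻¹ * f (k + 1) + f k) -
    Ck q N k * (q ^ (2 * k) * f (k - 1) + f k)

theorem tw_succ (q : ℂ) (k : ℕ) : tw q (k + 1) = -(q ^ (2 * k + 2)) * tw q k := by
  rw [tw, tw, pow_succ, show (k + 1) * (k + 1 + 1) = (2 * k + 2) + k * (k + 1) by ring, pow_add]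
  ring

theorem Lt_eq (q : ℂ) (N : ℕ) (hq : q ≠ 0) (f : ℕ → ℂ) (k : ℕ) :
    Lo q N (fun k => (tw q k)⁻¹ * f k) k = (tw q k)⁻¹ * Lt q N f k := by
  have h1 := tw_ne q hq k
  rw [Lo, Lt]
  have e1 : (tw q (k + 1))⁻¹ = -(q ^ (2 * k + 2))⁻¹ * (tw q k)⁻¹ := by
    rw [tw_succ, mul_inv, inv_neg]
  have e2 : Ck q N k * (tw q (k - 1))⁻¹ = Ck q N k * (-(q ^ (2 * k)) * (tw q k)⁻¹) := by
    cases k with
    | zero => rw [Ck_zero, zero_mul, zero_mul]
    | succ k =>
      rw [Nat.add_sub_cancel, tw_succ, mul_inv, show 2 * (k + 1) = 2 * k + 2 by ring, inv_neg]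
      have h2 : q ^ (2 * k + 2) ≠ 0 := pow_ne_zero _ hq
      field_simp
  rw [e1]
  linear_combination (f (k - 1)) * e2

/-- The coefficient of `pw t` in `Lt (pw t)`. -/
noncomputable def bet (q : ℂ) (N t : ℕ) : ℂ :=
  (q ^ (2 * t + 1))⁻¹ * (q ^ (2 * N + 2) + (q ^ (2 * N + 2))⁻¹ + 2 - (q ^ (2 * t + 2))⁻¹ -
    (q ^ (2 * t))⁻¹)

theorem Lt_pw (q : ℂ) (N : ℕ) (h : Gen q N) (t k : ℕ) (hk : k ≤ N) :
    Lt q N (fun k => pw q (t + 1) k) k =
      -(q ^ (2 * (t + 1) + 2))⁻¹ * pw q (t + 1 + 1) k + bet q N (t + 1) * pw q (t + 1) k -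
        (q ^ (2 * (t + 1)))⁻¹ * et q N (t + 1) * pw q t k := by
  have h0 := h.1
  have h1 := add_inv_ne h (k := k) (by omega)
  have h2 := add_inv_ne h (k := k + 1) (by omega)
  have h3 := br_odd_ne h hk
  have e1 : Ck q N k * (q ^ (2 * k) * pw q (t + 1) (k - 1) + pw q (t + 1) k) =
      Ck q N k * (q ^ (2 * k) * (br q ((k : ℤ) - t) * br q ((k : ℤ) - t - 1) * pw q t k) +
        pw q (t + 1) k) := by
    linear_combination (q ^ (2 * k)) * Ck_dn q N t k
  rw [Lt, e1, pw_up, pw_succ q (t + 1) k, pw_succ q t k]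
  push_cast
  have key : (q + q⁻¹) * (br q ((k : ℤ) + t + 1) * br q ((k : ℤ) - t)) -
      Ak q N k * ((q ^ (2 * k + 2))⁻¹ * (br q ((k : ℤ) + t + 1) * br q ((k : ℤ) + t + 2)) +
        br q ((k : ℤ) + t + 1) * br q ((k : ℤ) - t)) -
      Ck q N k * (q ^ (2 * k) * (br q ((k : ℤ) - t) * br q ((k : ℤ) - t - 1)) +
        br q ((k : ℤ) + t + 1) * br q ((k : ℤ) - t)) =
      -(q ^ (2 * (t + 1) + 2))⁻¹ * ((br q ((k : ℤ) + t + 1) * br q ((k : ℤ) - t)) *
        (br q ((k : ℤ) + (t + 1) + 1) * br q ((k : ℤ) - (t + 1)))) +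
        bet q N (t + 1) * (br q ((k : ℤ) + t + 1) * br q ((k : ℤ) - t)) -
        (q ^ (2 * (t + 1)))⁻¹ * et q N (t + 1) := by
    rw [Ak, Ck, et, bet]
    push_cast
    rw [div_mul_eq_mul_div, div_mul_eq_mul_div, mul_comm (q ^ (k + 1) + (q ^ (k + 1))⁻¹),
      mul_comm (q ^ k + (q ^ k)⁻¹)]
    have u1 : (q ^ (2 * k + 2))⁻¹ * (br q ((k : ℤ) + t + 1) * br q ((k : ℤ) + t + 2)) +
        br q ((k : ℤ) + t + 1) * br q ((k : ℤ) - t) =
        (q ^ (k + 1) + (q ^ (k + 1))⁻¹) * (br q ((k : ℤ) + 1) * br q ((k : ℤ) + t + 1) *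
          (q ^ (k + t + 2))⁻¹) := by
      rw [show 2 * k + 2 = k + k + 1 + 1 by ring]
      simp only [br, neg_add, sub_eq_add_neg, neg_neg, zpow_add₀ h0, zpow_neg,
        zpow_natCast, zpow_one, pow_add, pow_one, zpow_ofNat]
      field_simp
      ring
    have u2 : q ^ (2 * k) * (br q ((k : ℤ) - t) * br q ((k : ℤ) - t - 1)) +
        br q ((k : ℤ) + t + 1) * br q ((k : ℤ) - t) =
        (q ^ k + (q ^ k)⁻¹) * (br q k * br q ((k : ℤ) - t) * (q ^ k * (q ^ (t + 1))⁻¹)) := by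
      rw [show 2 * k = k + k by ring]
      simp only [br, neg_add, sub_eq_add_neg, neg_neg, zpow_add₀ h0, zpow_neg,
        zpow_natCast, zpow_one, pow_add, pow_one, zpow_ofNat]
      field_simp
      ring
    have u3 : (q + q⁻¹) * (br q ((k : ℤ) + t + 1) * br q ((k : ℤ) - t)) * br q (2 * (k : ℤ) + 1) +
        (br q ((k : ℤ) + 1) * br q ((N : ℤ) + k + 2) * br q ((N : ℤ) - k)) *
          (br q ((k : ℤ) + 1) * br q ((k : ℤ) + t + 1) * (q ^ (k + t + 2))⁻¹) +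
        (br q k * br q ((N : ℤ) + k + 1) * br q ((N : ℤ) + 1 - k)) *
          (br q k * br q ((k : ℤ) - t) * (q ^ k * (q ^ (t + 1))⁻¹)) =
        (-(q ^ (2 * (t + 1) + 2))⁻¹ * ((br q ((k : ℤ) + t + 1) * br q ((k : ℤ) - t)) *
        (br q ((k : ℤ) + (t + 1) + 1) * br q ((k : ℤ) - (t + 1)))) +
        (q ^ (2 * (t + 1) + 1))⁻¹ * (q ^ (2 * N + 2) + (q ^ (2 * N + 2))⁻¹ + 2 -
          (q ^ (2 * (t + 1) + 2))⁻¹ - (q ^ (2 * (t + 1)))⁻¹) *
            (br q ((k : ℤ) + t + 1) * br q ((k : ℤ) - t)) -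
        (q ^ (2 * (t + 1)))⁻¹ * -(br q ((t : ℤ) + 1) ^ 2 *
          (br q ((N : ℤ) + (t + 1) + 1) * br q ((N : ℤ) + 1 - (t + 1))))) *
          br q (2 * (k : ℤ) + 1) := by
      rw [show 2 * (t + 1) + 2 = t + t + 1 + 1 + 1 + 1 by ring,
        show 2 * (t + 1) + 1 = t + t + 1 + 1 + 1 by ring, show 2 * (t + 1) = t + t + 1 + 1 by ring,
        show 2 * N + 2 = N + N + 1 + 1 by ring]
      simp only [br, two_mul, neg_add, sub_eq_add_neg, neg_neg, zpow_add₀ h0, zpow_neg,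
        zpow_natCast, zpow_one, pow_add, pow_one, zpow_ofNat]
      have hx : q ^ k ≠ 0 := pow_ne_zero _ h0
      have hs : q ^ t ≠ 0 := pow_ne_zero _ h0
      have hn : q ^ N ≠ 0 := pow_ne_zero _ h0
      generalize q ^ k = x at *
      generalize q ^ t = s at *
      generalize q ^ N = n at *
      field_simp
      ring
    rw [u1, u2]
    generalize q ^ (k + 1) + (q ^ (k + 1))⁻¹ = d1 at *
    generalize q ^ k + (q ^ k)⁻¹ = d2 at *
    generalize br q (2 * (k : ℤ) + 1) = o at *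
    generalize q + q⁻¹ = c0 at *
    generalize (q ^ (2 * (t + 1) + 1))⁻¹ * (q ^ (2 * N + 2) + (q ^ (2 * N + 2))⁻¹ + 2 -
          (q ^ (2 * (t + 1) + 2))⁻¹ - (q ^ (2 * (t + 1)))⁻¹) = z1 at *
    generalize (q ^ (2 * (t + 1) + 2))⁻¹ = z2 at *
    generalize (q ^ (2 * (t + 1)))⁻¹ = z3 at *
    generalize (q ^ (k + t + 2))⁻¹ = z4 at *
    generalize q ^ k * (q ^ (t + 1))⁻¹ = z5 at *
    field_simp
    linear_combination u3
  linear_combination (pw q t k) * key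

theorem Lt_one (q : ℂ) (N : ℕ) (h : Gen q N) (k : ℕ) (hk : k ≤ N) :
    Lt q N (fun k => pw q 0 k) k = -(q ^ 2)⁻¹ * pw q 1 k + bet q N 0 * pw q 0 k := by
  have h0 := h.1
  have h1 := add_inv_ne h (k := k) (by omega)
  have h2 := add_inv_ne h (k := k + 1) (by omega)
  have h3 := br_odd_ne h hk
  rw [pw_succ q 0 k, Lt, Ak, Ck, bet]
  simp only [pw, Finset.range_zero, Finset.prod_empty, Nat.cast_zero, mul_zero, zero_add, mul_one,
    add_zero, sub_zero, one_mul, pow_zero, inv_one, pow_one]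
  rw [div_mul_eq_mul_div, div_mul_eq_mul_div, mul_comm (q ^ (k + 1) + (q ^ (k + 1))⁻¹),
    mul_comm (q ^ k + (q ^ k)⁻¹)]
  have u1 : (q ^ (2 * k + 2))⁻¹ + 1 =
      (q ^ (k + 1) + (q ^ (k + 1))⁻¹) * (q ^ (k + 1))⁻¹ := by
    rw [show 2 * k + 2 = (k + 1) + (k + 1) by ring, pow_add]
    have : q ^ (k + 1) ≠ 0 := pow_ne_zero _ h0
    field_simp
    ring
  have u2 : q ^ (2 * k) + 1 = (q ^ k + (q ^ k)⁻¹) * q ^ k := by
    rw [show 2 * k = k + k by ring, pow_add]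
    have : q ^ k ≠ 0 := pow_ne_zero _ h0
    field_simp
  have u3 : (q + q⁻¹) * br q (2 * (k : ℤ) + 1) +
      (br q ((k : ℤ) + 1) * br q ((N : ℤ) + k + 2) * br q ((N : ℤ) - k)) * (q ^ (k + 1))⁻¹ +
      (br q k * br q ((N : ℤ) + k + 1) * br q ((N : ℤ) + 1 - k)) * q ^ k =
      (-((q ^ 2)⁻¹ * (br q ((k : ℤ) + 1) * br q (k : ℤ))) +
      q⁻¹ * (q ^ (2 * N + 2) + (q ^ (2 * N + 2))⁻¹ + 2 - (q ^ 2)⁻¹ - 1)) *
        br q (2 * (k : ℤ) + 1) := by
    rw [show 2 * N + 2 = N + N + 1 + 1 by ring]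
    simp only [br, two_mul, neg_add, sub_eq_add_neg, neg_neg, zpow_add₀ h0, zpow_neg,
      zpow_natCast, zpow_one, pow_add, pow_one, zpow_ofNat]
    have hx : q ^ k ≠ 0 := pow_ne_zero _ h0
    have hn : q ^ N ≠ 0 := pow_ne_zero _ h0
    generalize q ^ k = x at *
    generalize q ^ N = n at *
    field_simp
    ring
  rw [u1, u2]
  generalize q ^ (k + 1) + (q ^ (k + 1))⁻¹ = d1 at *
  generalize q ^ k + (q ^ k)⁻¹ = d2 at *
  generalize br q (2 * (k : ℤ) + 1) = o at *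
  generalize q + q⁻¹ = c0 at *
  generalize q⁻¹ * (q ^ (2 * N + 2) + (q ^ (2 * N + 2))⁻¹ + 2 - (q ^ 2)⁻¹ - 1) = z1 at *
  generalize (q ^ 2)⁻¹ = z2 at *
  generalize (q ^ (k + 1))⁻¹ = z3 at *
  generalize q ^ k = z4 at *
  field_simp
  linear_combination u3

/-! ### The 6j-symbols -/

/-- The coefficients. -/
noncomputable def dt (q : ℂ) (N t : ℕ) : ℂ := (-1) ^ t / wd q N t

theorem wd_ne {q : ℂ} {N : ℕ} (h : Gen q N) {t : ℕ} (ht : t ≤ N) : wd q N t ≠ 0 := by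
  refine Finset.prod_ne_zero_iff.2 fun i hi => ?_
  have hi' := Finset.mem_range.1 hi
  have h1 := h.2 (i + 1) (by omega) (by omega)
  have h2 := h.2 (N + i + 2) (by omega) (by omega)
  have h3 := h.2 (N - i) (by omega) (by omega)
  push_cast [Nat.cast_sub (show i ≤ N by omega)] at h1 h2 h3
  exact mul_ne_zero (pow_ne_zero _ h1) (mul_ne_zero h2 h3)

theorem dt_succ {q : ℂ} {N : ℕ} (h : Gen q N) {t : ℕ} (ht : t < N) :
    dt q N (t + 1) * et q N (t + 1) = dt q N t := by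
  have h1 := wd_ne h (t := t) ht.le
  have h2 := wd_ne h (t := t + 1) ht
  have h3 : wd q N (t + 1) = wd q N t * (br q ((t : ℤ) + 1) ^ 2 *
      (br q ((N : ℤ) + t + 2) * br q ((N : ℤ) - t))) := Finset.prod_range_succ _ _
  rw [dt, dt, et, div_mul_eq_mul_div, div_eq_div_iff h2 h1, h3]
  push_cast
  rw [show (N : ℤ) + (t + 1) + 1 = N + t + 2 by ring, show (N : ℤ) + 1 - (t + 1) = N - t by ring]
  ring

theorem sixj_dt (q : ℂ) (N k l : ℕ) :
    sixj q N k l = ∑ t ∈ Finset.range (N + 1), dt q N t * (pw q t k * pw q t l) :=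
  Swap_sixj q N k l

theorem sixj_comm (q : ℂ) (N k l : ℕ) : sixj q N k l = sixj q N l k := by
  rw [sixj_dt, sixj_dt]
  exact Finset.sum_congr rfl fun t _ => by rw [mul_comm (pw q t k)]

theorem Lo_sum (q : ℂ) (N : ℕ) (f : ℕ → ℕ → ℂ) (c : ℕ → ℂ) (k : ℕ) (s : Finset ℕ) :
    Lo q N (fun k => ∑ t ∈ s, c t * f t k) k = ∑ t ∈ s, c t * Lo q N (f t) k := by
  simp only [Lo, Finset.mul_sum, ← Finset.sum_sub_distrib, ← Finset.sum_add_distrib]
  exact Finset.sum_congr rfl fun t _ => by ring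

theorem Lt_sum (q : ℂ) (N : ℕ) (f : ℕ → ℕ → ℂ) (c : ℕ → ℂ) (k : ℕ) (s : Finset ℕ) :
    Lt q N (fun k => ∑ t ∈ s, c t * f t k) k = ∑ t ∈ s, c t * Lt q N (f t) k := by
  simp only [Lt, Finset.mul_sum, ← Finset.sum_sub_distrib, ← Finset.sum_add_distrib]
  exact Finset.sum_congr rfl fun t _ => by ring

theorem Lo_sixj {q : ℂ} {N : ℕ} (h : Gen q N) {k X : ℕ} (hk : k ≤ N) (hX : X ≤ N) :
    Lo q N (fun k => sixj q N k X) k = cc q X * sixj q N k X := by
  have e1 : (fun k => sixj q N k X) = fun k => ∑ t ∈ Finset.range (N + 1),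
      (dt q N t * pw q t X) * pw q t k := by
    funext k
    rw [sixj_dt]
    exact Finset.sum_congr rfl fun t _ => by ring
  rw [e1, Lo_sum q N (fun t k => pw q t k), Finset.sum_range_succ', Lo_one]
  have e2 : ∀ t ∈ Finset.range N, dt q N (t + 1) * pw q (t + 1) X *
      Lo q N (fun k => pw q (t + 1) k) k =
      dt q N (t + 1) * pw q (t + 1) X * (cc q ((t + 1 : ℕ) : ℤ) * pw q (t + 1) k) +
        dt q N t * (pw q (t + 1) X * pw q t k) := by
    intro t ht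
    rw [Lo_pw q N h t k hk]
    linear_combination (pw q (t + 1) X * pw q t k) * dt_succ h (Finset.mem_range.1 ht)
  rw [Finset.sum_congr rfl e2, Finset.sum_add_distrib]
  have e3 : ∑ t ∈ Finset.range N, dt q N (t + 1) * pw q (t + 1) X *
      (cc q ((t + 1 : ℕ) : ℤ) * pw q (t + 1) k) + dt q N 0 * pw q 0 X *
        (cc q ((0 : ℕ) : ℤ) * pw q 0 k) =
      ∑ t ∈ Finset.range (N + 1), dt q N t * pw q t X * (cc q t * pw q t k) :=
    (Finset.sum_range_succ' (fun t => dt q N t * pw q t X * (cc q t * pw q t k)) N).symm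
  have e4 : ∑ t ∈ Finset.range N, dt q N t * (pw q (t + 1) X * pw q t k) =
      ∑ t ∈ Finset.range (N + 1), dt q N t * (pw q (t + 1) X * pw q t k) := by
    rw [Finset.sum_range_succ, pw_zero q (t := N + 1) (X := X) (by omega)]
    ring
  rw [add_right_comm, e3, e4, sixj_dt, Finset.mul_sum, ← Finset.sum_add_distrib]
  refine Finset.sum_congr rfl fun t _ => ?_
  rw [pw_step q h.1 t X]
  ring

theorem Lt_sixj {q : ℂ} {N : ℕ} (h : Gen q N) {k l : ℕ} (hk : k ≤ N) (hl : l ≤ N) :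
    Lt q N (fun k => sixj q N k l) k = ∑ t ∈ Finset.range (N + 1), dt q N t *
      (bet q N t * (pw q t k * pw q t l) + -(q ^ (2 * t + 2))⁻¹ *
        (pw q (t + 1) k * pw q t l + pw q t k * pw q (t + 1) l)) := by
  have e1 : (fun k => sixj q N k l) = fun k => ∑ t ∈ Finset.range (N + 1),
      (dt q N t * pw q t l) * pw q t k := by
    funext k
    rw [sixj_dt]
    exact Finset.sum_congr rfl fun t _ => by ring
  rw [e1, Lt_sum q N (fun t k => pw q t k), Finset.sum_range_succ', Lt_one q N h k hk]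
  have e2 : ∀ t ∈ Finset.range N, dt q N (t + 1) * pw q (t + 1) l *
      Lt q N (fun k => pw q (t + 1) k) k =
      dt q N (t + 1) * (bet q N (t + 1) * (pw q (t + 1) k * pw q (t + 1) l) +
        -(q ^ (2 * (t + 1) + 2))⁻¹ * (pw q (t + 1 + 1) k * pw q (t + 1) l)) +
        dt q N t * (-(q ^ (2 * t + 2))⁻¹ * (pw q t k * pw q (t + 1) l)) := by
    intro t ht
    rw [Lt_pw q N h t k hk, show 2 * (t + 1) = 2 * t + 2 by ring]
    linear_combination (-(q ^ (2 * t + 2))⁻¹ * (pw q t k * pw q (t + 1) l)) *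
      dt_succ h (Finset.mem_range.1 ht)
  rw [Finset.sum_congr rfl e2, Finset.sum_add_distrib]
  have e3 : ∑ t ∈ Finset.range N, dt q N (t + 1) *
      (bet q N (t + 1) * (pw q (t + 1) k * pw q (t + 1) l) +
        -(q ^ (2 * (t + 1) + 2))⁻¹ * (pw q (t + 1 + 1) k * pw q (t + 1) l)) +
      dt q N 0 * (bet q N 0 * (pw q 0 k * pw q 0 l) +
        -(q ^ (2 * 0 + 2))⁻¹ * (pw q (0 + 1) k * pw q 0 l)) =
      ∑ t ∈ Finset.range (N + 1), dt q N t * (bet q N t * (pw q t k * pw q t l) +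
        -(q ^ (2 * t + 2))⁻¹ * (pw q (t + 1) k * pw q t l)) :=
    (Finset.sum_range_succ' (fun t => dt q N t * (bet q N t * (pw q t k * pw q t l) +
        -(q ^ (2 * t + 2))⁻¹ * (pw q (t + 1) k * pw q t l))) N).symm
  have e4 : ∑ t ∈ Finset.range N, dt q N t * (-(q ^ (2 * t + 2))⁻¹ *
      (pw q t k * pw q (t + 1) l)) =
      ∑ t ∈ Finset.range (N + 1), dt q N t * (-(q ^ (2 * t + 2))⁻¹ *
        (pw q t k * pw q (t + 1) l)) := by
    rw [Finset.sum_range_succ, pw_zero q (t := N + 1) (X := l) (by omega)]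
    ring
  have e5 : dt q N 0 * pw q 0 l * (-(q ^ 2)⁻¹ * pw q 1 k + bet q N 0 * pw q 0 k) =
      dt q N 0 * (bet q N 0 * (pw q 0 k * pw q 0 l) +
        -(q ^ (2 * 0 + 2))⁻¹ * (pw q (0 + 1) k * pw q 0 l)) := by
    rw [mul_zero, zero_add, zero_add]
    ring
  rw [add_right_comm, e5, e3, e4, ← Finset.sum_add_distrib]
  exact Finset.sum_congr rfl fun t _ => by ring

theorem Lt_symm {q : ℂ} {N : ℕ} (h : Gen q N) {k l : ℕ} (hk : k ≤ N) (hl : l ≤ N) :
    Lt q N (fun k => sixj q N k l) k = Lt q N (fun l => sixj q N k l) l := by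
  have e1 : (fun l => sixj q N k l) = fun l => sixj q N l k := funext fun l => sixj_comm q N k l
  rw [e1, Lt_sixj h hk hl, Lt_sixj h hl hk]
  exact Finset.sum_congr rfl fun t _ => by ring

/-! ### Uniqueness -/

theorem Ak_ne {q : ℂ} {N : ℕ} (h : Gen q N) {k : ℕ} (hk : k < N) : Ak q N k ≠ 0 := by
  have h1 := h.2 (k + 1) (by omega) (by omega)
  have h2 := h.2 (N + k + 2) (by omega) (by omega)
  have h3 := h.2 (N - k) (by omega) (by omega)
  push_cast [Nat.cast_sub (show k ≤ N by omega)] at h1 h2 h3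
  exact div_ne_zero (neg_ne_zero.2 (mul_ne_zero (mul_ne_zero h1 h2) h3))
    (mul_ne_zero (add_inv_ne h (by omega)) (br_odd_ne h hk.le))

theorem Lo_succ {q : ℂ} {N : ℕ} {k : ℕ} (f : ℕ → ℂ) (hA : Ak q N k ≠ 0) :
    f (k + 1) = (Ak q N k)⁻¹ * (Lo q N f k - (q + q⁻¹) * f k + Ak q N k * f k -
      Ck q N k * (f (k - 1) - f k)) := by
  rw [Lo]
  field_simp
  ring

theorem Lo_congr {q : ℂ} {N : ℕ} {f g : ℕ → ℂ} (hfg : ∀ l ≤ N, f l = g l) {k : ℕ} (hk : k ≤ N) :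
    Lo q N f k = Lo q N g k := by
  have h1 : Ak q N k * f (k + 1) = Ak q N k * g (k + 1) := by
    rcases lt_or_eq_of_le hk with h | h
    · rw [hfg (k + 1) (by omega)]
    · rw [h, Ak_top, zero_mul, zero_mul]
  rw [Lo, Lo, hfg k hk, hfg (k - 1) (by omega)]
  linear_combination h1

theorem uniq1 {q : ℂ} {N : ℕ} (h : Gen q N) {f g ρ : ℕ → ℂ} (h0 : f 0 = g 0)
    (hf : ∀ k ≤ N, Lo q N f k = ρ k * f k) (hg : ∀ k ≤ N, Lo q N g k = ρ k * g k) :
    ∀ k ≤ N, f k = g k := by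
  intro k
  induction k using Nat.strong_induction_on with
  | _ k ih =>
    intro hk
    cases k with
    | zero => exact h0
    | succ k =>
      have hA := Ak_ne h (k := k) (by omega)
      rw [Lo_succ f hA, Lo_succ g hA, hf k (by omega), hg k (by omega), ih k (by omega) (by omega),
        ih (k - 1) (by omega) (by omega)]

theorem uniq2 {q : ℂ} {N : ℕ} (h : Gen q N) {F G : ℕ → ℕ → ℂ} (h0 : ∀ l ≤ N, F 0 l = G 0 l)
    (hF : ∀ k ≤ N, ∀ l ≤ N, Lo q N (fun k => F k l) k = Lo q N (F k) l)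
    (hG : ∀ k ≤ N, ∀ l ≤ N, Lo q N (fun k => G k l) k = Lo q N (G k) l) :
    ∀ k ≤ N, ∀ l ≤ N, F k l = G k l := by
  intro k
  induction k using Nat.strong_induction_on with
  | _ k ih =>
    intro hk l hl
    cases k with
    | zero => exact h0 l hl
    | succ k =>
      have hA := Ak_ne h (k := k) (by omega)
      have e1 := Lo_succ (fun k => F k l) hA
      have e2 := Lo_succ (fun k => G k l) hA
      rw [e1, e2, hF k (by omega) l hl, hG k (by omega) l hl,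
        Lo_congr (fun l hl => ih k (by omega) (by omega) l hl) hl, ih k (by omega) (by omega) l hl,
        ih (k - 1) (by omega) (by omega) l hl]

/-! ### Summation by parts -/

theorem br_Ck {q : ℂ} {N : ℕ} (h : Gen q N) {X : ℕ} (hX : X < N) :
    br q (2 * ((X + 1 : ℕ) : ℤ) + 1) * Ck q N (X + 1) = br q (2 * (X : ℤ) + 1) * Ak q N X := by
  have h1 := br_odd_ne h (k := X + 1) (by omega)
  have h2 := br_odd_ne h (k := X) (by omega)
  have h3 := add_inv_ne h (k := X + 1) (by omega)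
  rw [Ck, Ak]
  push_cast
  push_cast at h1
  rw [show (N : ℤ) + (X + 1) + 1 = N + X + 2 by ring, show (N : ℤ) + 1 - (X + 1) = N - X by ring]
  field_simp

theorem Lo_adj {q : ℂ} {N : ℕ} (h : Gen q N) (f g : ℕ → ℂ) :
    ∑ X ∈ Finset.range (N + 1), br q (2 * (X : ℤ) + 1) * (f X * Lo q N g X) =
      ∑ X ∈ Finset.range (N + 1), br q (2 * (X : ℤ) + 1) * (Lo q N f X * g X) := by
  rw [← sub_eq_zero, ← Finset.sum_sub_distrib]
  have e1 : ∀ X : ℕ, br q (2 * (X : ℤ) + 1) * (f X * Lo q N g X) -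
      br q (2 * (X : ℤ) + 1) * (Lo q N f X * g X) =
      br q (2 * (X : ℤ) + 1) * Ak q N X * (f X * g (X + 1) - f (X + 1) * g X) +
      br q (2 * (X : ℤ) + 1) * Ck q N X * (f X * g (X - 1) - f (X - 1) * g X) := by
    intro X
    rw [Lo, Lo]
    ring
  simp only [e1, Finset.sum_add_distrib]
  have e2 : ∑ X ∈ Finset.range (N + 1), br q (2 * (X : ℤ) + 1) * Ak q N X *
      (f X * g (X + 1) - f (X + 1) * g X) = ∑ X ∈ Finset.range N,
      br q (2 * (X : ℤ) + 1) * Ak q N X * (f X * g (X + 1) - f (X + 1) * g X) := by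
    rw [Finset.sum_range_succ, Ak_top]
    ring
  have e3 : ∑ X ∈ Finset.range (N + 1), br q (2 * (X : ℤ) + 1) * Ck q N X *
      (f X * g (X - 1) - f (X - 1) * g X) = ∑ X ∈ Finset.range N,
      -(br q (2 * (X : ℤ) + 1) * Ak q N X * (f X * g (X + 1) - f (X + 1) * g X)) := by
    rw [Finset.sum_range_succ', Ck_zero]
    rw [mul_zero, zero_mul, add_zero]
    refine Finset.sum_congr rfl fun X hX => ?_
    rw [br_Ck h (Finset.mem_range.1 hX), Nat.add_sub_cancel]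
    ring
  rw [e2, e3, Finset.sum_neg_distrib, add_neg_cancel]

/-! ### The Racah identity -/

/-- The weights. -/
noncomputable def Wx (q : ℂ) (N X : ℕ) : ℂ := br q (2 * (X : ℤ) + 1) / br q ((N : ℤ) + 1)

/-- The left side. -/
noncomputable def HH (q : ℂ) (N k l : ℕ) : ℂ :=
  ∑ X ∈ Finset.range (N + 1), tw q X * Wx q N X * (sixj q N k X * sixj q N X l)

theorem sixj_zero (q : ℂ) (N l : ℕ) : sixj q N 0 l = 1 := by
  rw [sixj_dt, Finset.sum_range_succ', Finset.sum_eq_zero]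
  · simp [dt, wd, pw]
  · intro t _
    rw [pw_zero q (t := t + 1) (X := 0) (by omega)]
    ring

theorem HH_comm (q : ℂ) (N k l : ℕ) : HH q N k l = HH q N l k := by
  rw [HH, HH]
  refine Finset.sum_congr rfl fun X _ => ?_
  rw [sixj_comm q N k X, sixj_comm q N X l]
  ring

theorem Lo_HH {q : ℂ} {N : ℕ} (h : Gen q N) {k : ℕ} (hk : k ≤ N) (l : ℕ) :
    Lo q N (fun k => HH q N k l) k = ∑ X ∈ Finset.range (N + 1),
      tw q X * Wx q N X * (cc q X * (sixj q N k X * sixj q N X l)) := by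
  have e1 : (fun k => HH q N k l) = fun k => ∑ X ∈ Finset.range (N + 1),
      (tw q X * Wx q N X * sixj q N X l) * sixj q N k X := by
    funext k
    exact Finset.sum_congr rfl fun X _ => by ring
  rw [e1, Lo_sum q N (fun X k => sixj q N k X)]
  refine Finset.sum_congr rfl fun X hX => ?_
  rw [Lo_sixj h hk (Nat.lt_succ_iff.1 (Finset.mem_range.1 hX))]
  ring

theorem Lo_tw {q : ℂ} {N : ℕ} (h : Gen q N) {k : ℕ} (hk : k ≤ N) :
    Lo q N (tw q) k = (2 * q + q * (q ^ (2 * N + 2) + (q ^ (2 * N + 2))⁻¹) - q ^ 2 * cc q k) *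
      tw q k := by
  have h0 := h.1
  have h1 := add_inv_ne h (k := k) (by omega)
  have h2 := add_inv_ne h (k := k + 1) (by omega)
  have h3 := br_odd_ne h hk
  have e2 : Ck q N k * tw q (k - 1) = Ck q N k * (-(q ^ (2 * k))⁻¹ * tw q k) := by
    cases k with
    | zero => rw [Ck_zero, zero_mul, zero_mul]
    | succ k =>
      rw [Nat.add_sub_cancel, tw_succ, show 2 * (k + 1) = 2 * k + 2 by ring]
      have h2 : q ^ (2 * k + 2) ≠ 0 := pow_ne_zero _ h0
      field_simp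
  have key : (q + q⁻¹) - Ak q N k * (q ^ (2 * k + 2) + 1) - Ck q N k * ((q ^ (2 * k))⁻¹ + 1) =
      2 * q + q * (q ^ (2 * N + 2) + (q ^ (2 * N + 2))⁻¹) - q ^ 2 * cc q k := by
    rw [Ak, Ck]
    rw [div_mul_eq_mul_div, div_mul_eq_mul_div, mul_comm (q ^ (k + 1) + (q ^ (k + 1))⁻¹),
      mul_comm (q ^ k + (q ^ k)⁻¹)]
    have u1 : q ^ (2 * k + 2) + 1 = (q ^ (k + 1) + (q ^ (k + 1))⁻¹) * q ^ (k + 1) := by
      rw [show 2 * k + 2 = (k + 1) + (k + 1) by ring, pow_add]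
      have : q ^ (k + 1) ≠ 0 := pow_ne_zero _ h0
      field_simp
    have u2 : (q ^ (2 * k))⁻¹ + 1 = (q ^ k + (q ^ k)⁻¹) * (q ^ k)⁻¹ := by
      rw [show 2 * k = k + k by ring, pow_add]
      have : q ^ k ≠ 0 := pow_ne_zero _ h0
      field_simp
      ring
    have u3 : (q + q⁻¹) * br q (2 * (k : ℤ) + 1) +
        (br q ((k : ℤ) + 1) * br q ((N : ℤ) + k + 2) * br q ((N : ℤ) - k)) * q ^ (k + 1) +
        (br q k * br q ((N : ℤ) + k + 1) * br q ((N : ℤ) + 1 - k)) * (q ^ k)⁻¹ =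
        (2 * q + q * (q ^ (2 * N + 2) + (q ^ (2 * N + 2))⁻¹) - q ^ 2 * cc q k) *
          br q (2 * (k : ℤ) + 1) := by
      rw [show 2 * N + 2 = N + N + 1 + 1 by ring]
      simp only [br, cc, two_mul, neg_add, sub_eq_add_neg, neg_neg, zpow_add₀ h0, zpow_neg,
        zpow_natCast, zpow_one, pow_add, pow_one, zpow_ofNat]
      have hx : q ^ k ≠ 0 := pow_ne_zero _ h0
      have hn : q ^ N ≠ 0 := pow_ne_zero _ h0
      generalize q ^ k = x at *
      generalize q ^ N = n at *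
      field_simp
      ring
    rw [u1, u2]
    generalize q ^ (k + 1) + (q ^ (k + 1))⁻¹ = d1 at *
    generalize q ^ k + (q ^ k)⁻¹ = d2 at *
    generalize br q (2 * (k : ℤ) + 1) = o at *
    generalize q + q⁻¹ = c0 at *
    generalize 2 * q + q * (q ^ (2 * N + 2) + (q ^ (2 * N + 2))⁻¹) - q ^ 2 * cc q k = z1 at *
    generalize (q ^ k)⁻¹ = z3 at *
    generalize q ^ (k + 1) = z4 at *
    field_simp
    linear_combination u3
  rw [← key, Lo, tw_succ]
  linear_combination e2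

theorem HH_zero {q : ℂ} {N : ℕ} (h : Gen q N) : ∀ l ≤ N,
    HH q N l 0 = (-1) ^ N * q ^ (N * (N + 2)) * (tw q l)⁻¹ := by
  have h0 := h.1
  have hq2 : q ^ 2 ≠ 0 := pow_ne_zero _ h0
  have hM : br q ((N : ℤ) + 1) ≠ 0 := by
    have := h.2 (N + 1) (by omega) (by omega)
    push_cast at this
    exact this
  set ρ : ℕ → ℂ := fun k => (q ^ 2)⁻¹ *
    (2 * q + q * (q ^ (2 * N + 2) + (q ^ (2 * N + 2))⁻¹) - cc q k) with hρ
  refine uniq1 h (ρ := ρ) ?_ ?_ ?_
  · have h1 := tele1' q h0 (N + 1)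
    have e1 : ((N + 1 : ℕ) : ℤ) = (N : ℤ) + 1 := by push_cast; ring
    rw [e1] at h1
    have e2 : HH q N 0 0 = (∑ X ∈ Finset.range (N + 1), tw q X * br q (2 * (X : ℤ) + 1)) /
        br q ((N : ℤ) + 1) := by
      rw [HH, Finset.sum_div]
      refine Finset.sum_congr rfl fun X _ => ?_
      rw [sixj_comm q N X 0, sixj_zero, Wx]
      ring
    have e3 : tw q 0 = 1 := by simp [tw]
    rw [e2, e3, inv_one, mul_one, div_eq_iff hM]
    refine mul_left_cancel₀ h0 ?_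
    rw [h1, show (N + 1) * (N + 1) = N * (N + 2) + 1 by ring, pow_succ, pow_succ]
    ring
  · intro k hk
    rw [Lo_HH h hk 0]
    have e1 : ∑ X ∈ Finset.range (N + 1), br q (2 * (X : ℤ) + 1) *
        (tw q X * Lo q N (fun X => sixj q N X k) X) =
        ∑ X ∈ Finset.range (N + 1), br q (2 * (X : ℤ) + 1) *
          (Lo q N (tw q) X * sixj q N X k) := Lo_adj h _ _
    have e2 : ∑ X ∈ Finset.range (N + 1), br q (2 * (X : ℤ) + 1) *
        (tw q X * Lo q N (fun X => sixj q N X k) X) =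
        cc q k * br q ((N : ℤ) + 1) * HH q N k 0 := by
      rw [HH, Finset.mul_sum]
      refine Finset.sum_congr rfl fun X hX => ?_
      rw [Lo_sixj h (Nat.lt_succ_iff.1 (Finset.mem_range.1 hX)) hk, sixj_comm q N X 0, sixj_zero,
        sixj_comm q N X k, Wx]
      field_simp
    have e3 : ∑ X ∈ Finset.range (N + 1), br q (2 * (X : ℤ) + 1) *
        (Lo q N (tw q) X * sixj q N X k) = br q ((N : ℤ) + 1) *
        ((2 * q + q * (q ^ (2 * N + 2) + (q ^ (2 * N + 2))⁻¹)) * HH q N k 0 - q ^ 2 *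
          ∑ X ∈ Finset.range (N + 1), tw q X * Wx q N X *
            (cc q X * (sixj q N k X * sixj q N X 0))) := by
      rw [HH, Finset.mul_sum, Finset.mul_sum, ← Finset.sum_sub_distrib, Finset.mul_sum]
      refine Finset.sum_congr rfl fun X hX => ?_
      rw [Lo_tw h (Nat.lt_succ_iff.1 (Finset.mem_range.1 hX)), sixj_comm q N X 0, sixj_zero,
        sixj_comm q N X k, Wx]
      field_simp
    rw [e2, e3, mul_comm (cc q k), mul_assoc] at e1
    have e4 := mul_left_cancel₀ hM e1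
    simp only [hρ]
    clear e1 e2 e3
    generalize ∑ X ∈ Finset.range (N + 1), tw q X * Wx q N X *
      (cc q X * (sixj q N k X * sixj q N X 0)) = Sg at *
    generalize (2 * q + q * (q ^ (2 * N + 2) + (q ^ (2 * N + 2))⁻¹)) = Kc at *
    field_simp
    linear_combination e4
  · intro k hk
    have e1 : (fun l => (-1) ^ N * q ^ (N * (N + 2)) * (tw q l)⁻¹) =
        fun l => ∑ t ∈ Finset.range 1, ((-1) ^ N * q ^ (N * (N + 2))) *
          ((tw q l)⁻¹ * pw q t l) := by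
      funext l
      simp [pw]
    have e2 := Lt_one q N h k hk
    rw [e1, Lo_sum q N (fun t l => (tw q l)⁻¹ * pw q t l), Finset.sum_range_one,
      Lt_eq q N h0 (fun k => pw q 0 k), e2, hρ]
    simp only [Finset.sum_range_one]
    have e3 : pw q 1 k = (cc q k - cc q 0) * pw q 0 k := by
      have := pw_step q h0 0 k
      rw [zero_add] at this
      exact_mod_cast this
    have e4 : -(q ^ 2)⁻¹ * (cc q k - cc q 0) + bet q N 0 = (q ^ 2)⁻¹ *
        (2 * q + q * (q ^ (2 * N + 2) + (q ^ (2 * N + 2))⁻¹) - cc q k) := by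
      rw [bet]
      have : q ^ (2 * N + 2) ≠ 0 := pow_ne_zero _ h0
      have e5 : cc q 0 = q + q⁻¹ := by
        rw [cc]
        norm_num
      rw [e5]
      generalize q ^ (2 * N + 2) = n at *
      generalize cc q k = z at *
      simp only [mul_zero, zero_add, pow_zero, pow_one, inv_one]
      field_simp
      ring
    have e0 : pw q 0 k = 1 := by simp [pw]
    rw [e3, ← e4, e0]
    ring

theorem racah {q : ℂ} {N : ℕ} (h : Gen q N) {k l : ℕ} (hk : k ≤ N) (hl : l ≤ N) :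
    ∑ X ∈ Finset.range (N + 1), tw q X * Wx q N X * (sixj q N k X * sixj q N X l) =
      (-1) ^ N * q ^ (N * (N + 2)) * ((tw q k)⁻¹ * (tw q l)⁻¹ * sixj q N k l) := by
  have h0 := h.1
  refine uniq2 h (F := HH q N) (G := fun k l => (-1) ^ N * q ^ (N * (N + 2)) *
    ((tw q k)⁻¹ * (tw q l)⁻¹ * sixj q N k l)) ?_ ?_ ?_ k hk l hl
  · intro l hl
    rw [HH_comm, HH_zero h l hl]
    simp only [sixj_zero]
    have e3 : tw q 0 = 1 := by simp [tw]
    rw [e3]
    ring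
  · intro k hk l hl
    have e1 : HH q N k = fun l => HH q N l k := funext fun l => HH_comm q N k l
    rw [e1, Lo_HH h hk l, Lo_HH h hl k]
    refine Finset.sum_congr rfl fun X _ => ?_
    rw [sixj_comm q N k X, sixj_comm q N X l]
    ring
  · intro k hk l hl
    have e1 : (fun k => (-1) ^ N * q ^ (N * (N + 2)) * ((tw q k)⁻¹ * (tw q l)⁻¹ * sixj q N k l)) =
        fun k => ∑ t ∈ Finset.range 1, ((-1) ^ N * q ^ (N * (N + 2)) * (tw q l)⁻¹) *
          ((tw q k)⁻¹ * sixj q N k l) := by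
      funext k
      rw [Finset.sum_range_one]
      ring
    have e2 : (fun l => (-1) ^ N * q ^ (N * (N + 2)) * ((tw q k)⁻¹ * (tw q l)⁻¹ * sixj q N k l)) =
        fun l => ∑ t ∈ Finset.range 1, ((-1) ^ N * q ^ (N * (N + 2)) * (tw q k)⁻¹) *
          ((tw q l)⁻¹ * sixj q N k l) := by
      funext l
      rw [Finset.sum_range_one]
      ring
    rw [e1, e2, Lo_sum q N (fun _ k => (tw q k)⁻¹ * sixj q N k l),
      Lo_sum q N (fun _ l => (tw q l)⁻¹ * sixj q N k l), Finset.sum_range_one,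
      Finset.sum_range_one, Lt_eq q N h0 (fun k => sixj q N k l),
      Lt_eq q N h0 (fun l => sixj q N k l), Lt_symm h hk hl]
    ring

theorem br_inv (q : ℂ) (n : ℤ) : br q⁻¹ n = -br q n := by
  rw [br, br, inv_zpow, inv_zpow, zpow_neg, inv_inv]
  ring

theorem pw_inv (q : ℂ) (t X : ℕ) : pw q⁻¹ t X = pw q t X := by
  refine Finset.prod_congr rfl fun i _ => ?_
  rw [br_inv, br_inv]
  ring

theorem wd_inv (q : ℂ) (N t : ℕ) : wd q⁻¹ N t = wd q N t := by
  refine Finset.prod_congr rfl fun i _ => ?_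
  rw [br_inv, br_inv, br_inv]
  ring

theorem sixj_inv (q : ℂ) (N k l : ℕ) : sixj q⁻¹ N k l = sixj q N k l := by
  rw [sixj_dt, sixj_dt]
  refine Finset.sum_congr rfl fun t _ => ?_
  rw [dt, dt, wd_inv, pw_inv, pw_inv]

theorem Wx_inv (q : ℂ) (N X : ℕ) : Wx q⁻¹ N X = Wx q N X := by
  rw [Wx, Wx, br_inv, br_inv, neg_div_neg_eq]

theorem tw_inv (q : ℂ) (X : ℕ) : tw q⁻¹ X = (tw q X)⁻¹ := by
  rw [tw, tw, mul_inv, inv_pow]
  congr 1
  rw [← inv_pow, inv_neg, inv_one]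

theorem Gen_inv {q : ℂ} {N : ℕ} (h : Gen q N) : Gen q⁻¹ N := by
  refine ⟨inv_ne_zero h.1, fun k h1 h2 => ?_⟩
  rw [br_inv]
  exact neg_ne_zero.2 (h.2 k h1 h2)

/-- The Racah identity, for both signs. -/
theorem racah' {q : ℂ} {N : ℕ} (h : Gen q N) {ε : ℤ} (hε : ε = 1 ∨ ε = -1) {k l : ℕ}
    (hk : k ≤ N) (hl : l ≤ N) :
    ∑ X ∈ Finset.range (N + 1), tw q X ^ ε * Wx q N X * (sixj q N k X * sixj q N X l) =
      (-1) ^ N * q ^ ((N : ℤ) * (N + 2) * ε) * (tw q k ^ (-ε) * tw q l ^ (-ε) * sixj q N k l) := by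
  have e : q ^ (N * (N + 2)) = q ^ ((N : ℤ) * (N + 2)) := by exact_mod_cast rfl
  rcases hε with rfl | rfl
  · have h1 := racah h hk hl
    simp only [zpow_one, mul_one, zpow_neg]
    rw [h1, e]
  · have h1 := racah (Gen_inv h) hk hl
    simp only [tw_inv, Wx_inv, sixj_inv, inv_inv] at h1
    simp only [zpow_neg, zpow_one, neg_neg, mul_neg, mul_one]
    rw [h1, inv_pow, e]

end Pool.Agent.S5
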