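import Pool.Agent.H1TB.HingeH
import Pool.Agent.H63.VC4.GeoDefs
import Pool.Agent.S5.X.Abs
import Pool.Agent.S5.X.Rac

/-!
# The alternating diagram of `C(a_0, ..., a_m)` and its mixed chains
-/

set_option autoImplicit false

namespace Pool.Agent.S5

open Pool.Agent.H63.VC7 Pool.Agent.H63.VC10 Pool.Agent.H1TB

/-- The Racah identity holds for generic `q`. -/
theorem rac {q : ℂ} {N : ℕ} (hg : Gen q N) : Rac q N := by
  intro ε hε k hk l hl
  have h := racah' hg hε hk hl
  rw [show ε * ((N : ℤ) * (N + 2)) = (N : ℤ) * (N + 2) * ε by ring]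
  have e : ∑ X ∈ Finset.range (N + 1), tw q X ^ ε * (br q (2 * (X : ℤ) + 1) /
      br q ((N : ℤ) + 1)) * sixj q N k X * sixj q N X l =
      ∑ X ∈ Finset.range (N + 1), tw q X ^ ε * Wx q N X * (sixj q N k X * sixj q N X l) := by
    refine Finset.sum_congr rfl fun X _ => ?_
    unfold Wx
    ring
  rw [e, h]
  ring

/-- The alternating chain of a list, with the first sign `ε`. -/
def alt : ℤ → List ℕ → List ℤ
  | _, [] => []
  | ε, a :: l => ε * a :: alt (-ε) l

theorem alt_ofFn (m : ℕ) (ε : ℤ) (a : Fin m → ℕ) :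
    alt ε (List.ofFn a) = List.ofFn fun i : Fin m => ε * (-1) ^ (i : ℕ) * (a i : ℤ) := by
  induction m generalizing ε with
  | zero => rfl
  | succ m ih =>
    rw [List.ofFn_succ, List.ofFn_succ, alt, ih]
    congr 1
    · simp
    · congr 1
      funext i
      rw [Fin.val_succ, pow_succ]
      ring

theorem abs_aux : ∀ (l : List ℤ) (a : ℤ) (d : ℕ), (∀ x ∈ a :: l, x ≠ 0) →
    (∀ x ∈ conwayHAux d (a :: l), 1 ≤ x) → d ≤ 1 →
    ∃ s : ℤ, Abs (alt a.sign (conwayHAux d (a :: l))) ((a - d * a.sign) :: l) s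
  | [], a, d, h0, h1, hd => by
    refine ⟨0, ?_⟩
    have h2 : 1 ≤ a.natAbs - d := h1 _ (by simp [conwayHAux])
    have e : alt a.sign (conwayHAux d [a]) = [a - d * a.sign] := by
      simp only [conwayHAux, alt]
      congr 1
      rw [Nat.cast_sub (by omega), mul_sub, Int.sign_mul_natAbs]
      ring
    rw [e]
    exact Abs.refl _
  | b :: l, a, d, h0, h1, hd => by
    have ha : a ≠ 0 := h0 a (by simp)
    have hb : b ≠ 0 := h0 b (by simp)
    rw [conwayHAux] at h1 ⊢
    by_cases hs : 0 < a * b
    · rw [if_pos hs] at h1 ⊢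
      have h2 : 1 ≤ a.natAbs - d - 1 := h1 _ (by simp)
      obtain ⟨s, hA⟩ := abs_aux l b 1 (fun x hx => h0 x (List.mem_cons_of_mem _ hx))
        (fun x hx => h1 x (by simp [hx])) le_rfl
      have hsg : b.sign = a.sign := by
        rcases lt_or_gt_of_ne ha with h | h
        · have hb' : b < 0 := by nlinarith
          rw [Int.sign_eq_neg_one_of_neg h, Int.sign_eq_neg_one_of_neg hb']
        · have hb' : 0 < b := by
            by_contra hc
            nlinarith
          rw [Int.sign_eq_one_of_pos h, Int.sign_eq_one_of_pos hb']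
      have hε : (-a.sign = 1 ∨ -a.sign = -1) := by
        rcases lt_or_gt_of_ne ha with h | h
        · left
          rw [Int.sign_eq_neg_one_of_neg h]
          norm_num
        · right
          rw [Int.sign_eq_one_of_pos h]
      refine ⟨s + -a.sign, ?_⟩
      have e1 : alt a.sign ((a.natAbs - d - 1) :: 1 :: conwayHAux 1 (b :: l)) =
          (a - d * a.sign - a.sign) :: -a.sign :: alt b.sign (conwayHAux 1 (b :: l)) := by
        rw [alt, alt, neg_neg, hsg]
        congr 1
        · rw [Nat.cast_sub (by omega), Nat.cast_sub (by omega), mul_sub, mul_sub,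
            Int.sign_mul_natAbs]
          push_cast
          ring
        · congr 1
          push_cast
          ring
      rw [e1]
      have h3 := (hA.cons (-a.sign)).cons (a - d * a.sign - a.sign)
      refine h3.trans ?_
      have h4 := Abs.one (l1 := []) (x := a - d * a.sign - a.sign) (ε := -a.sign)
        (y := b - ((1 : ℕ) : ℤ) * b.sign) (l2 := l) hε
      rw [List.nil_append, List.nil_append] at h4
      have e2 : a - d * a.sign - a.sign - -a.sign = a - d * a.sign := by ring
      have e3 : b - ((1 : ℕ) : ℤ) * b.sign - -a.sign = b := by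
        rw [hsg]
        push_cast
        ring
      rw [e2, e3] at h4
      exact h4
    · rw [if_neg hs] at h1 ⊢
      have h2 : 1 ≤ a.natAbs - d := h1 _ (by simp)
      obtain ⟨s, hA⟩ := abs_aux l b 0 (fun x hx => h0 x (List.mem_cons_of_mem _ hx))
        (fun x hx => h1 x (by simp [hx])) (by omega)
      have hsg : b.sign = -a.sign := by
        rcases lt_or_gt_of_ne ha with h | h
        · have hb' : 0 < b := by
            by_contra hc
            have hb2 : b < 0 := lt_of_le_of_ne (not_lt.mp hc) hb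
            nlinarith
          rw [Int.sign_eq_neg_one_of_neg h, Int.sign_eq_one_of_pos hb']
          norm_num
        · have hb' : b < 0 := by
            by_contra hc
            have hb2 : 0 < b := lt_of_le_of_ne (not_lt.mp hc) (Ne.symm hb)
            nlinarith
          rw [Int.sign_eq_one_of_pos h, Int.sign_eq_neg_one_of_neg hb']
      refine ⟨s, ?_⟩
      have e1 : alt a.sign ((a.natAbs - d) :: conwayHAux 0 (b :: l)) =
          (a - d * a.sign) :: alt b.sign (conwayHAux 0 (b :: l)) := by
        rw [alt, hsg]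
        congr 1
        rw [Nat.cast_sub (by omega), mul_sub, Int.sign_mul_natAbs]
        ring
      rw [e1]
      have e3 : b - ((0 : ℕ) : ℤ) * b.sign = b := by
        push_cast
        ring
      rw [e3] at hA
      exact hA.cons _

/-- A chain `c` arises from the alternating chain of `conwayH c` by absorptions. -/
theorem abs_conwayH {c : List ℤ} {a : ℤ} {l : List ℤ} (hc : c = a :: l) (h0 : ∀ x ∈ c, x ≠ 0)
    (h1 : ∀ x ∈ conwayH c, 1 ≤ x) : ∃ s : ℤ, Abs (alt a.sign (conwayH c)) c s := by
  subst hc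
  obtain ⟨s, h⟩ := abs_aux l a 0 h0 h1 (by omega)
  refine ⟨s, ?_⟩
  have e : a - ((0 : ℕ) : ℤ) * a.sign = a := by
    push_cast
    ring
  rw [e] at h
  exact h

/-- The colored Jones polynomials of the alternating diagram of `C(a_0, ..., a_m)` are those of every
chain `c` with `conwayH c = (a_0, ..., a_m)`; `ε` is the sign of the first entry of `c`. -/
theorem coloredJones_alt {m m' : ℕ} {a : Fin (m + 1) → ℕ} {c : Fin (m' + 1) → ℤ}
    (hca : conwayH (List.ofFn c) = List.ofFn a) (ha : ∀ i, 1 ≤ a i) (hc : ∀ i, c i ≠ 0) :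
    ∃ s : ℤ, ∀ (q : ℂ) (N : ℕ), Gen q N → ∀ e : ℤ,
      coloredJones (diagram Fin.castSucc
        (fun i : Fin (m + 1) => (c 0).sign * (-1) ^ (i : ℕ) * (a i : ℤ))) e N q =
      coloredJones (diagram Fin.castSucc c) (e + s) N q := by
  have h0 : ∀ x ∈ List.ofFn c, x ≠ 0 := by
    intro x hx
    obtain ⟨i, rfl⟩ := (List.mem_ofFn' _ _).mp hx
    exact hc i
  have h1 : ∀ x ∈ conwayH (List.ofFn c), 1 ≤ x := by
    intro x hx
    rw [hca] at hx
    obtain ⟨i, rfl⟩ := (List.mem_ofFn' _ _).mp hx
    exact ha i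
  obtain ⟨s, hA⟩ := abs_conwayH (List.ofFn_succ (f := c)) h0 h1
  rw [hca, alt_ofFn] at hA
  exact ⟨s, fun q N hg e => hA.coloredJones_eq hg (rac hg) e⟩

end Pool.Agent.S5
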