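import Pool.Agent.H25.RK.DGf
import Pool.Agent.S3.Gr3
import Pool.Agent.S4.D.Ex
import Pool.Agent.S5.X.KDef

/-!
# The factors of the nodes in closed form, by the kernels `kC`, `kB`, `kH`
-/

namespace Pool.Agent.S5

open Pool.Agent.H63.VC hiding ext
open Pool.Agent.H63.VC3 Pool.Agent.H63.VC7 Pool.Agent.S3 Pool.Agent.S4 Complex
open scoped ComplexConjugate

/-! ### The interpolation at the integers -/

theorem rS_nat {M k : ℕ} (h : k < M) : rS M (k : ℂ) = 1 / (S M k : ℂ) := by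
  rw [rS_eq_right (by omega) (by rw [natCast_re]; linarith [Nat.cast_nonneg (α := ℝ) k]), exp_neg,
    LL_nat M k h, one_div]

theorem rS_neg_nat {M n : ℕ} (h0 : 1 ≤ n) (hM : 0 < M) : rS M (-(n : ℂ)) = 0 := by
  have h1 : (1 : ℝ) ≤ n := by exact_mod_cast h0
  rw [rS_eq_left hM (by rw [neg_re, natCast_re]; linarith)]
  have : sin (Real.pi * -(n : ℂ)) = 0 := by
    rw [mul_neg, sin_neg, mul_comm, Complex.sin_nat_mul_pi, neg_zero]
  rw [this]
  ring

theorem rS_sum {M k l : ℕ} (hk : k < M) (hl : l < M) :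
    rS M ((k : ℂ) + l + 1 - M) =
      if M ≤ k + l + 1 then 1 / (S M (k + l + 1 - M) : ℂ) else 0 := by
  split_ifs with h
  · have e : (k : ℂ) + l + 1 - M = ((k + l + 1 - M : ℕ) : ℂ) := by
      rw [Nat.cast_sub h]
      push_cast
      ring
    rw [e, rS_nat (by omega)]
  · have e : (k : ℂ) + l + 1 - M = -((M - (k + l + 1) : ℕ) : ℂ) := by
      rw [Nat.cast_sub (by omega)]
      push_cast
      ring
    rw [e, rS_neg_nat (by omega) (by omega)]

theorem rS_dif {M k l : ℕ} (hk : k < M) :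
    rS M ((k : ℂ) - l) = if l ≤ k then 1 / (S M (k - l) : ℂ) else 0 := by
  split_ifs with h
  · have e : (k : ℂ) - l = ((k - l : ℕ) : ℂ) := by
      rw [Nat.cast_sub h]
    rw [e, rS_nat (by omega)]
  · have e : (k : ℂ) - l = -((l - k : ℕ) : ℂ) := by
      rw [Nat.cast_sub (by omega)]
      push_cast
      ring
    rw [e, rS_neg_nat (by omega) (by omega)]

theorem rS_conj (M : ℕ) (z : ℂ) : rS M (conj z) = conj (rS M z) := by
  unfold rS
  rw [conj_re]
  split_ifs with h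
  · rw [LL_conj, ← map_neg, exp_conj]
  · have e : conj z + (M : ℂ) = conj (z + M) := by simp
    have c2 : (starRingEnd ℂ) 2 = 2 := by simpa using Complex.conj_ofReal 2
    rw [e, LL_conj, ← map_neg, exp_conj, map_mul, map_mul, ← sin_conj]
    simp [c2]

theorem conj_yM (M k : ℕ) : conj (yM M k) = yM M k := by
  have c2 : (starRingEnd ℂ) 2 = 2 := by simpa using Complex.conj_ofReal 2
  rw [yM]
  simp [c2]

/-! ### Labels -/

theorem yM_sum {M : ℕ} (hM : 0 < M) (k l : ℕ) :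
    (M : ℂ) * (yM M k + yM M l) - 1 = (k : ℂ) + l + 1 - M := by
  have : (M : ℂ) ≠ 0 := by exact_mod_cast hM.ne'
  rw [yM, yM]
  field_simp
  ring

theorem yM_dif {M : ℕ} (hM : 0 < M) (k l : ℕ) :
    (M : ℂ) * (yM M k - yM M l) = (k : ℂ) - l := by
  have : (M : ℂ) ≠ 0 := by exact_mod_cast hM.ne'
  rw [yM, yM]
  field_simp
  ring

theorem yM_half {M : ℕ} (hM : 0 < M) (k : ℕ) : (M : ℂ) * (yM M k + 1 / 2) - 1 = (k : ℂ) := by
  have : (M : ℂ) ≠ 0 := by exact_mod_cast hM.ne'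
  rw [yM]
  field_simp
  ring

theorem yM_top {M : ℕ} (hM : 0 < M) : yM M (M - 1) = 1 / 2 := by
  have : (M : ℂ) ≠ 0 := by exact_mod_cast hM.ne'
  rw [yM, Nat.cast_sub (by omega)]
  field_simp
  push_cast
  ring

/-! ### Two slots -/

theorem DG_D2 {m : ℕ} (r : ℝ) (M : ℕ) {j j' : Fin m} (hj : j ≠ j') (k : Fin m → ℕ) :
    DG r M {j, j'} k = D2 r M (k j) (k j') := by
  have h1 : NT r M {j, j'} k = NT r M (Finset.univ : Finset (Fin 2)) ![k j, k j'] := by
    funext v
    rw [NT, NT, Finset.prod_pair hj, Fin.prod_univ_two]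
    rfl
  rw [D2, DG, DG, h1]

theorem DG_D2_end {m : ℕ} (r : ℝ) {M : ℕ} (hM : 0 < M) (j : Fin m) (k : Fin m → ℕ) :
    DG r M {j} k = M * D2 r M (k j) (M - 1) := by
  have hM' : (M : ℂ) ≠ 0 := by exact_mod_cast hM.ne'
  have h1 : NT r M {j} k = fun v => (M : ℂ) *
      NT r M (Finset.univ : Finset (Fin 2)) ![k j, M - 1] v := by
    funext v
    rw [NT, NT, Finset.prod_singleton, Fin.prod_univ_two]
    have e : qc M (M - 1) v = 1 / M := by
      rw [qc, Nat.sub_self]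
      simp
    simp only [Matrix.cons_val_zero, Matrix.cons_val_one, e]
    field_simp
  rw [D2, DG, DG, Finset.mul_sum]
  refine Finset.sum_congr rfl fun X _ => ?_
  rw [h1, deriv_const_mul_field]

theorem D2_comm (r : ℝ) (M k l : ℕ) : D2 r M k l = D2 r M l k := by
  have h1 : NT r M (Finset.univ : Finset (Fin 2)) ![k, l] =
      NT r M (Finset.univ : Finset (Fin 2)) ![l, k] := by
    funext v
    rw [NT, NT, Fin.prod_univ_two, Fin.prod_univ_two]
    simp only [Matrix.cons_val_zero, Matrix.cons_val_one]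
    ring
  rw [D2, D2, DG, DG, h1]

theorem D2_neg (r : ℝ) (M k l : ℕ) : D2 (-r) M k l = conj (D2 r M k l) := DG_neg _ _ _ _

theorem D2_pair (r : ℝ) (M k l : ℕ) : D2 r M k l = DG r M {(0 : Fin 2), 1} ![k, l] := by
  rw [D2]
  rfl

/-! ### Two half twists -/

theorem D2_two_pos {M k l : ℕ} (hk : k < M) (hl : l < M) :
    D2 1 M k l = ph2 1 M * (4 * Real.pi) * kC 1 M (yM M k) (yM M l) := by
  have hM : 0 < M := by omega
  have hM' : (M : ℂ) ≠ 0 := by exact_mod_cast hM.ne'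
  rw [D2_pair, DG_one (by decide) _ (by simpa using hk) (by simpa using hl), kC, yM_sum hM,
    rS_sum hk hl]
  simp only [Matrix.cons_val_zero, Matrix.cons_val_one]
  split_ifs with h
  · have hp : (S M (k + l + 1 - M) : ℂ) ≠ 0 := by
      exact_mod_cast (S_pos (show k + l + 1 - M < M by omega)).ne'
    have e1 : (-1 : ℂ) ^ (M - 1) = (-1) ^ (M + 1) := by
      obtain ⟨n, rfl⟩ : ∃ n, M = n + 1 := ⟨M - 1, by omega⟩
      rw [Nat.add_sub_cancel, pow_succ, pow_succ]
      ring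
    have e2 : (I : ℂ) ^ (k + l + 1 - M) = exp (Real.pi * I * ((k : ℂ) + l + 1 - M) / 2) := by
      have e3 : (k : ℂ) + l + 1 - M = ((k + l + 1 - M : ℕ) : ℂ) := by
        rw [Nat.cast_sub h]
        push_cast
        ring
      rw [e3, show (Real.pi : ℂ) * I * ((k + l + 1 - M : ℕ) : ℂ) / 2 =
        ((k + l + 1 - M : ℕ) : ℂ) * (Real.pi / 2 * I) by ring, exp_nat_mul, exp_pi_div_two_mul_I]
    have e4 : exp (Real.pi * I * ((k : ℂ) + l + 1 - M) / 2) *
        exp (Real.pi * I * (-2 * (((M : ℂ) - k) * ((M : ℂ) - l)) +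
          ((k : ℂ) + l + 1 - M) * ((k : ℂ) + l - M) / 2) / M) =
        cG 2 M * (exp (((1 : ℤ) : ℂ) * Real.pi * I * (1 - M / 2 - 1 / (2 * M))) *
        exp (((1 : ℤ) : ℂ) * Real.pi * I * (M * ((yM M k - yM M l) ^ 2 / 2 +
          (1 - yM M k - yM M l) / 2) - (1 - yM M k - yM M l) / 2))) := by
      rw [cG, ← exp_add, ← exp_add, ← exp_add, exp_eq_exp_iff_exists_int, yM, yM]
      refine ⟨(k : ℤ) + l - M, ?_⟩
      push_cast
      field_simp
      ring
    rw [ph2, e1, e2, mul_assoc ((-1 : ℂ) ^ (M + 1)), e4]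
    have hc := cG_ne 2 M
    field_simp
  · rw [mul_zero, mul_zero]

theorem conj_exp_s (s : ℤ) (x : ℂ) (hx : conj x = x) :
    conj (exp (s * Real.pi * I * x)) = exp (((-s : ℤ) : ℂ) * Real.pi * I * x) := by
  rw [← exp_conj]
  congr 1
  simp [hx]

theorem conj_kC (s : ℤ) (M k l : ℕ) :
    conj (kC s M (yM M k) (yM M l)) = kC (-s) M (yM M k) (yM M l) := by
  have c2 : (starRingEnd ℂ) 2 = 2 := by simpa using Complex.conj_ofReal 2
  rw [kC, kC, map_mul, ← rS_conj, conj_exp_s]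
  · simp [conj_yM]
  · simp [conj_yM, c2]

theorem conj_kB (s : ℤ) (M k l : ℕ) :
    conj (kB s M (yM M k) (yM M l)) = kB (-s) M (yM M k) (yM M l) := by
  have c2 : (starRingEnd ℂ) 2 = 2 := by simpa using Complex.conj_ofReal 2
  have c3 : (starRingEnd ℂ) 3 = 3 := by simpa using Complex.conj_ofReal 3
  rw [kB, kB, map_mul, ← rS_conj, conj_exp_s]
  · simp [conj_yM]
  · simp [conj_yM, c2, c3]

theorem conj_kH (s : ℤ) (M k l : ℕ) :
    conj (kH s M (yM M k) (yM M l)) = kH (-s) M (yM M k) (yM M l) := by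
  have c2 : (starRingEnd ℂ) 2 = 2 := by simpa using Complex.conj_ofReal 2
  rw [kH, kH, map_mul, map_mul, map_mul, ← rS_conj, ← exp_conj, ← exp_conj, ← exp_conj]
  congr 2
  · congr 1
    simp [conj_yM, c2]
  · rw [map_neg, map_neg, ← LL_conj, ← LL_conj]
    simp [conj_yM, c2]
  · simp [conj_yM]

theorem conj_ph2 (s : ℤ) (M : ℕ) : conj (ph2 s M) = ph2 (-s) M := by
  have c2 : (starRingEnd ℂ) 2 = 2 := by simpa using Complex.conj_ofReal 2
  rw [ph2, ph2, map_mul, conj_exp_s]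
  · simp
  · simp [c2]

theorem conj_ph3 (s : ℤ) (M : ℕ) : conj (ph3 s M) = ph3 (-s) M := by
  have c2 : (starRingEnd ℂ) 2 = 2 := by simpa using Complex.conj_ofReal 2
  have c4 : (starRingEnd ℂ) 4 = 4 := by simpa using Complex.conj_ofReal 4
  rw [ph3, ph3, map_mul, conj_exp_s]
  · simp
  · simp [c2, c4]

theorem conj_ph4 (s : ℤ) (M : ℕ) : conj (ph4 s M) = ph4 (-s) M := by
  have c2 : (starRingEnd ℂ) 2 = 2 := by simpa using Complex.conj_ofReal 2
  rw [ph4, ph4, map_mul, conj_exp_s]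
  · simp
  · simp [c2]

theorem conj_fourpi : conj (4 * (Real.pi : ℂ)) = 4 * (Real.pi : ℂ) := by
  have c4 : (starRingEnd ℂ) 4 = 4 := by simpa using Complex.conj_ofReal 4
  simp [c4]

/-- Two half twists. -/
theorem D2_two {s : ℤ} (hs : s = 1 ∨ s = -1) {M k l : ℕ} (hk : k < M) (hl : l < M) :
    D2 s M k l = ph2 s M * (4 * Real.pi) * kC s M (yM M k) (yM M l) := by
  rcases hs with rfl | rfl
  · have := D2_two_pos hk hl
    push_cast
    exact this
  · have h1 : (((-1 : ℤ) : ℝ)) = -1 := by norm_num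
    rw [h1, D2_neg, D2_two_pos hk hl, map_mul, map_mul, conj_ph2, conj_kC, conj_fourpi]

/-! ### One half twist -/

/-- The unimodular constant of a node with one half twist. -/
noncomputable def ph1 (s : ℤ) (M : ℕ) : ℂ :=
  (-1) ^ (M + 1) * exp (s * Real.pi * I * (M / 4 + 1 / 2 - 3 / (4 * M)))

theorem kH_lat (s : ℤ) {M k l : ℕ} (hk : k < M) (hl : l < M) :
    kH s M (yM M k) (yM M l) = exp (-(s * Real.pi * I * (M * (yM M k + 1 / 2) *
      (yM M l + 1 / 2) - yM M k - yM M l))) * (1 / (S M k : ℂ) * (1 / (S M l : ℂ))) *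
      (if M ≤ k + l + 1 then 1 / (S M (k + l + 1 - M) : ℂ) else 0) := by
  have hM : 0 < M := by omega
  rw [kH, yM_sum hM, rS_sum hk hl, yM_half hM, yM_half hM, exp_neg (LL M k), exp_neg (LL M l),
    LL_nat M k hk, LL_nat M l hl, one_div (S M k : ℂ), one_div (S M l : ℂ)]

theorem D2_half_pos {M k l : ℕ} (hk : k < M) (hl : l < M) :
    D2 (1 / 2) M k l = ph1 1 M * (4 * Real.pi * M) * kH 1 M (yM M k) (yM M l) := by
  have hM : 0 < M := by omega
  have hM' : (M : ℂ) ≠ 0 := by exact_mod_cast hM.ne'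
  rw [D2_pair, DG_half (by decide) _ (by simpa using hk) (by simpa using hl), kH_lat 1 hk hl]
  simp only [Matrix.cons_val_zero, Matrix.cons_val_one]
  split_ifs with h
  · have hp : (S M (k + l + 1 - M) : ℂ) ≠ 0 := by
      exact_mod_cast (S_pos (show k + l + 1 - M < M by omega)).ne'
    have hp1 : (S M k : ℂ) ≠ 0 := by exact_mod_cast (S_pos hk).ne'
    have hp2 : (S M l : ℂ) ≠ 0 := by exact_mod_cast (S_pos hl).ne'
    have e2 : (-1 : ℂ) ^ (k + l) = exp (Real.pi * I * ((k : ℂ) + l)) := by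
      rw [show (Real.pi : ℂ) * I * ((k : ℂ) + l) = ((k + l : ℕ) : ℂ) * (Real.pi * I) by
        push_cast; ring, exp_nat_mul, exp_pi_mul_I]
    have e3 : (-1 : ℂ) ^ (M + 1) = exp (Real.pi * I * ((M : ℂ) + 1)) := by
      rw [show (Real.pi : ℂ) * I * ((M : ℂ) + 1) = ((M + 1 : ℕ) : ℂ) * (Real.pi * I) by
        push_cast; ring, exp_nat_mul, exp_pi_mul_I]
    have e4 : exp (Real.pi * I) * (exp (Real.pi * I * ((k : ℂ) + l)) *
        exp (-(Real.pi * I * (((M : ℂ) - k) * ((M : ℂ) - l)) / M))) =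
        cG 1 M * (exp (Real.pi * I * ((M : ℂ) + 1)) *
          exp (((1 : ℤ) : ℂ) * Real.pi * I * (M / 4 + 1 / 2 - 3 / (4 * M))) *
        exp (-(((1 : ℤ) : ℂ) * Real.pi * I * (M * (yM M k + 1 / 2) *
          (yM M l + 1 / 2) - yM M k - yM M l)))) := by
      rw [cG, ← exp_add, ← exp_add, ← exp_add, ← exp_add, ← exp_add, exp_eq_exp_iff_exists_int, yM,
        yM]
      refine ⟨(k : ℤ) + l - M, ?_⟩
      push_cast
      field_simp
      ring
    rw [exp_pi_mul_I] at e4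
    have hc := cG_ne 1 M
    rw [ph1, e2, e3]
    generalize exp (Real.pi * I * ((k : ℂ) + l)) = x1 at *
    generalize exp (-(Real.pi * I * (((M : ℂ) - k) * ((M : ℂ) - l)) / M)) = x2 at *
    generalize exp (Real.pi * I * ((M : ℂ) + 1)) = x3 at *
    generalize exp (((1 : ℤ) : ℂ) * Real.pi * I * (M / 4 + 1 / 2 - 3 / (4 * M))) = x4 at *
    generalize exp (-(((1 : ℤ) : ℂ) * Real.pi * I * (M * (yM M k + 1 / 2) *
          (yM M l + 1 / 2) - yM M k - yM M l))) = x5 at *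
    field_simp
    linear_combination e4
  · rw [mul_zero, mul_zero]

/-! ### The Bailey step -/

theorem pB_kB {M k l : ℕ} (hk : k < M) (hl : l ≤ k) :
    (cG 2 M)⁻¹ * pB M k (k - l) =
      exp (((1 : ℤ) : ℂ) * Real.pi * I / (2 * M)) * kB 1 M (yM M k) (yM M l) := by
  have hM : 0 < M := by omega
  have hM' : (M : ℂ) ≠ 0 := by exact_mod_cast hM.ne'
  rw [pB, kB, yM_dif hM, rS_dif hk, if_pos hl]
  have hp : (S M (k - l) : ℂ) ≠ 0 := by
    exact_mod_cast (S_pos (show k - l < M by omega)).ne'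
  have e2 : (I : ℂ) ^ (k - l) = exp (Real.pi * I * ((k : ℂ) - l) / 2) := by
    have e3 : (k : ℂ) - l = ((k - l : ℕ) : ℂ) := by rw [Nat.cast_sub hl]
    rw [e3, show (Real.pi : ℂ) * I * ((k - l : ℕ) : ℂ) / 2 =
      ((k - l : ℕ) : ℂ) * (Real.pi / 2 * I) by ring, exp_nat_mul, exp_pi_div_two_mul_I]
  have e4 : exp (Real.pi * I * ((k : ℂ) - l) / 2) * exp (Real.pi * I *
      (2 * ((M : ℂ) - 1 - k) * ((M : ℂ) - k) + 2 * ((k - l : ℕ) : ℂ) * ((M : ℂ) - k) +
        ((k - l : ℕ) : ℂ) * (((k - l : ℕ) : ℂ) - 1) / 2) / M) =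
      cG 2 M * (exp (((1 : ℤ) : ℂ) * Real.pi * I / (2 * M)) *
        exp (((1 : ℤ) : ℂ) * Real.pi * I * (M * ((yM M k + yM M l) ^ 2 / 2 -
          (yM M k - yM M l) / 2) - (yM M k + 3 * yM M l) / 2))) := by
    rw [cG, ← exp_add, ← exp_add, ← exp_add, exp_eq_exp_iff_exists_int, yM, yM, Nat.cast_sub hl]
    refine ⟨(M : ℤ) - 1 - l, ?_⟩
    push_cast
    field_simp
    ring
  have hc := cG_ne 2 M
  rw [e2, e4]
  field_simp

theorem D2_bailey (a : ℤ) {M k l : ℕ} (hk : k < M) (hl : l < M) :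
    D2 (((a + 2 : ℤ) : ℝ) / 2) M k l = exp (((1 : ℤ) : ℂ) * Real.pi * I / (2 * M)) *
      ∑ z ∈ Finset.range M, kB 1 M (yM M k) (yM M z) * D2 ((a : ℝ) / 2) M z l := by
  have hM : 0 < M := by omega
  rw [D2_pair, DG_bailey' a _ 0 (by simp) _ (by
    intro i hi
    fin_cases i
    · simpa using hk
    · simpa using hl)]
  have e1 : ∑ z ∈ Finset.range M, kB 1 M (yM M k) (yM M z) * D2 ((a : ℝ) / 2) M z l =
      ∑ z ∈ Finset.range (k + 1), kB 1 M (yM M k) (yM M z) * D2 ((a : ℝ) / 2) M z l := by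
    symm
    refine Finset.sum_subset (Finset.range_mono (by omega)) fun z _ hz => ?_
    rw [Finset.mem_range, not_lt] at hz
    rw [kB, yM_dif hM, rS_dif hk, if_neg (by omega), mul_zero, zero_mul]
  rw [e1, Finset.mul_sum, Finset.mul_sum]
  simp only [Matrix.cons_val_zero]
  refine Finset.sum_congr rfl fun z hz => ?_
  have hz' : z ≤ k := Nat.lt_succ_iff.1 (Finset.mem_range.1 hz)
  have e2 : DG ((a : ℝ) / 2) M {(0 : Fin 2), 1} (Function.update ![k, l] 0 z) =
      D2 ((a : ℝ) / 2) M z l := by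
    rw [D2_pair]
    congr 1
    funext i
    fin_cases i <;> simp
  rw [← mul_assoc, pB_kB hk hz', e2]
  ring

/-! ### Three half twists -/

theorem D2_three_pos {M k l : ℕ} (hk : k < M) (hl : l < M) :
    D2 (3 / 2) M k l = ph3 1 M * (4 * Real.pi * M) *
      ∑ z ∈ Finset.range M, kB 1 M (yM M k) (yM M z) * kH 1 M (yM M z) (yM M l) := by
  have h := D2_bailey 1 hk hl
  have e1 : (((1 + 2 : ℤ) : ℝ) / 2) = 3 / 2 := by norm_num
  have e2 : (((1 : ℤ) : ℝ) / 2) = 1 / 2 := by norm_num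
  rw [e1, e2] at h
  rw [h]
  have e3 : ∀ z ∈ Finset.range M, kB 1 M (yM M k) (yM M z) * D2 (1 / 2) M z l =
      (ph1 1 M * (4 * Real.pi * M)) * (kB 1 M (yM M k) (yM M z) * kH 1 M (yM M z) (yM M l)) := by
    intro z hz
    rw [D2_half_pos (Finset.mem_range.1 hz) hl]
    ring
  rw [Finset.sum_congr rfl e3, ← Finset.mul_sum]
  have hM' : (M : ℂ) ≠ 0 := by exact_mod_cast (show 0 < M by omega).ne'
  have e4 : exp (((1 : ℤ) : ℂ) * Real.pi * I / (2 * M)) * ph1 1 M = ph3 1 M := by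
    rw [ph1, ph3, mul_left_comm, ← exp_add]
    congr 2
    field_simp
    ring
  rw [← e4]
  ring

theorem D2_three {s : ℤ} (hs : s = 1 ∨ s = -1) {M k l : ℕ} (hk : k < M) (hl : l < M) :
    D2 (3 * s / 2) M k l = ph3 s M * (4 * Real.pi * M) *
      ∑ z ∈ Finset.range M, kB s M (yM M k) (yM M z) * kH s M (yM M z) (yM M l) := by
  rcases hs with rfl | rfl
  · have e : (3 * ((1 : ℤ) : ℝ) / 2) = 3 / 2 := by norm_num
    rw [e, D2_three_pos hk hl]
  · have e : (3 * ((-1 : ℤ) : ℝ) / 2) = -(3 / 2) := by norm_num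
    rw [e, D2_neg, D2_three_pos hk hl, map_mul, map_mul, conj_ph3, map_sum]
    congr 1
    · congr 1
      rw [map_mul, conj_fourpi]
      simp
    · refine Finset.sum_congr rfl fun z _ => ?_
      rw [map_mul, conj_kB, conj_kH]

/-! ### Four half twists -/

theorem D2_four_pos {M k l : ℕ} (hk : k < M) (hl : l < M) :
    D2 2 M k l = ph4 1 M * (4 * Real.pi) *
      ∑ z ∈ Finset.range M, kB 1 M (yM M k) (yM M z) * kC 1 M (yM M z) (yM M l) := by
  have h := D2_bailey 2 hk hl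
  have e1 : (((2 + 2 : ℤ) : ℝ) / 2) = 2 := by norm_num
  have e2 : (((2 : ℤ) : ℝ) / 2) = 1 := by norm_num
  rw [e1, e2] at h
  rw [h]
  have e3 : ∀ z ∈ Finset.range M, kB 1 M (yM M k) (yM M z) * D2 1 M z l =
      (ph2 1 M * (4 * Real.pi)) * (kB 1 M (yM M k) (yM M z) * kC 1 M (yM M z) (yM M l)) := by
    intro z hz
    rw [D2_two_pos (Finset.mem_range.1 hz) hl]
    ring
  rw [Finset.sum_congr rfl e3, ← Finset.mul_sum]
  have hM' : (M : ℂ) ≠ 0 := by exact_mod_cast (show 0 < M by omega).ne'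
  have e4 : exp (((1 : ℤ) : ℂ) * Real.pi * I / (2 * M)) * ph2 1 M = ph4 1 M := by
    rw [ph2, ph4, mul_left_comm, ← exp_add]
    congr 2
    field_simp
    ring
  rw [← e4]
  ring

theorem D2_four {s : ℤ} (hs : s = 1 ∨ s = -1) {M k l : ℕ} (hk : k < M) (hl : l < M) :
    D2 (2 * s) M k l = ph4 s M * (4 * Real.pi) *
      ∑ z ∈ Finset.range M, kB s M (yM M k) (yM M z) * kC s M (yM M z) (yM M l) := by
  rcases hs with rfl | rfl
  · have e : (2 * ((1 : ℤ) : ℝ)) = 2 := by norm_num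
    rw [e, D2_four_pos hk hl]
  · have e : (2 * ((-1 : ℤ) : ℝ)) = -2 := by norm_num
    rw [e, D2_neg, D2_four_pos hk hl, map_mul, map_mul, conj_ph4, map_sum, conj_fourpi]
    congr 1
    refine Finset.sum_congr rfl fun z _ => ?_
    rw [map_mul, conj_kB, conj_kC]

/-! ### The constants are unimodular -/

theorem norm_exp_s (s : ℤ) (x : ℝ) : ‖exp (s * Real.pi * I * x)‖ = 1 := by
  rw [show (s : ℂ) * Real.pi * I * x = ((s * Real.pi * x : ℝ) : ℂ) * I by push_cast; ring,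
    norm_exp_ofReal_mul_I]

theorem ph2_norm (s : ℤ) (M : ℕ) : ‖ph2 s M‖ = 1 := by
  have h := norm_exp_s s (1 - M / 2 - 1 / (2 * M))
  push_cast at h
  rw [ph2, norm_mul, h, norm_pow, norm_neg, norm_one, one_pow, one_mul]

theorem ph3_norm (s : ℤ) (M : ℕ) : ‖ph3 s M‖ = 1 := by
  have h := norm_exp_s s (M / 4 + 1 / 2 - 1 / (4 * M))
  push_cast at h
  rw [ph3, norm_mul, h, norm_pow, norm_neg, norm_one, one_pow, one_mul]

theorem ph4_norm (s : ℤ) (M : ℕ) : ‖ph4 s M‖ = 1 := by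
  have h := norm_exp_s s (1 - M / 2)
  push_cast at h
  rw [ph4, norm_mul, h, norm_pow, norm_neg, norm_one, one_pow, one_mul]

/-! ### Nodes of a path -/

variable {m : ℕ}

theorem ke_mid (M : ℕ) (k : Fin m → ℕ) (j : Fin m) : ke M k ((j : ℕ) + 1) = k j := by
  rw [ke, dif_pos ⟨by omega, by omega⟩]
  rfl

theorem ke_zero (M : ℕ) (k : Fin m → ℕ) : ke M k 0 = M - 1 := by
  rw [ke, dif_neg (by omega)]

theorem ke_last (M : ℕ) (k : Fin m → ℕ) : ke M k (m + 1) = M - 1 := by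
  rw [ke, dif_neg (by omega)]

theorem ke_lt {M : ℕ} (hM : 0 < M) {k : Fin m → ℕ} (hk : ∀ j, k j < M) (n : ℕ) :
    ke M k n < M := by
  rw [ke]
  split_ifs
  · exact hk _
  · omega

/-- The factor of a node of a path. -/
theorem DG_path (hm : 1 ≤ m) (r : ℝ) {M : ℕ} (hM : 0 < M) (k : Fin m → ℕ) (i : Fin (m + 1)) :
    DG r M (inc (Fin.castSucc (n := m)) Fin.succ i) k =
      (if i = 0 ∨ i = Fin.last m then (M : ℂ) else 1) *
        D2 r M (ke M k i) (ke M k ((i : ℕ) + 1)) := by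
  by_cases h0 : i = 0
  · subst h0
    have e : inc (Fin.castSucc (n := m)) Fin.succ 0 = {(⟨0, hm⟩ : Fin m)} := by
      ext j
      simp only [inc, Finset.mem_filter, Finset.mem_univ, true_and, Finset.mem_singleton,
        Fin.ext_iff, Fin.val_castSucc, Fin.val_succ, Fin.val_zero]
      omega
    have e2 : ke M k (((0 : Fin (m + 1)) : ℕ) + 1) = k ⟨0, hm⟩ := ke_mid M k ⟨0, hm⟩
    rw [e, DG_D2_end r hM, if_pos (Or.inl rfl), e2, Fin.val_zero, ke_zero, D2_comm]
  · by_cases h1 : i = Fin.last m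
    · subst h1
      have e : inc (Fin.castSucc (n := m)) Fin.succ (Fin.last m) = {(⟨m - 1, by omega⟩ : Fin m)} := by
        ext j
        simp only [inc, Finset.mem_filter, Finset.mem_univ, true_and, Finset.mem_singleton,
          Fin.ext_iff, Fin.val_castSucc, Fin.val_succ, Fin.val_last]
        have := j.2
        omega
      have e2 : ke M k ((Fin.last m : Fin (m + 1)) : ℕ) = k ⟨m - 1, by omega⟩ := by
        have := ke_mid M k (⟨m - 1, by omega⟩ : Fin m)
        simp only at this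
        rw [Fin.val_last]
        rw [show m - 1 + 1 = m by omega] at this
        exact this
      rw [e, DG_D2_end r hM, if_pos (Or.inr rfl), e2, Fin.val_last, ke_last]
    · have hi0 : 1 ≤ (i : ℕ) := by
        rcases Nat.eq_zero_or_pos (i : ℕ) with h | h
        · exact absurd (Fin.ext h) h0
        · exact h
      have hi1 : (i : ℕ) < m := by
        have := i.2
        rcases Nat.lt_or_ge (i : ℕ) m with h | h
        · exact h
        · exact absurd (Fin.ext (by rw [Fin.val_last]; omega)) h1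
      have e : inc (Fin.castSucc (n := m)) Fin.succ i =
          {(⟨(i : ℕ) - 1, by omega⟩ : Fin m), (⟨(i : ℕ), hi1⟩ : Fin m)} := by
        ext j
        simp only [inc, Finset.mem_filter, Finset.mem_univ, true_and, Finset.mem_singleton,
          Finset.mem_insert, Fin.ext_iff, Fin.val_castSucc, Fin.val_succ]
        omega
      have e2 : ke M k (i : ℕ) = k ⟨(i : ℕ) - 1, by omega⟩ := by
        have := ke_mid M k (⟨(i : ℕ) - 1, by omega⟩ : Fin m)
        simp only at this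
        rw [show (i : ℕ) - 1 + 1 = i by omega] at this
        exact this
      have e3 : ke M k ((i : ℕ) + 1) = k ⟨(i : ℕ), hi1⟩ := ke_mid M k ⟨(i : ℕ), hi1⟩
      rw [e, DG_D2 r M (by
        intro h
        have := congrArg Fin.val h
        simp only at this
        omega), if_neg (by tauto), e2, e3, one_mul]

end Pool.Agent.S5
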